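import Pool.Agent.H56.TSp.Defs

/-!
# Variable space of the layered pebbling formula

Semantic refutations of the layered pebbling formula need large variable space: a nested interval
argument.
-/

namespace Pool.Agent.H56.TSp

open Finset

section Trace

set_option linter.unusedSectionVars false

variable {ι : Type*} [DecidableEq ι]

/-- The canonical (smallest) semantic trace of the variable sets `V` and the axioms `φ`. -/
def Fc (prem : ι → Finset ι) (z : ι) (V : ℕ → Finset ι) (φ : ℕ → Option (Option ι)) :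
    ℕ → Set (ι → ZMod 2)
  | 0 => Set.univ
  | t + 1 => {x | ∃ x' ∈ Fc prem z V φ t, (∀ a, φ t = some a → SatAx prem z x' a) ∧
      ∀ v ∈ V (t + 1), x v = x' v}

theorem mem_Fc_succ (prem : ι → Finset ι) (z : ι) (V : ℕ → Finset ι)
    (φ : ℕ → Option (Option ι)) (t : ℕ) (x : ι → ZMod 2) :
    x ∈ Fc prem z V φ (t + 1) ↔ ∃ x' ∈ Fc prem z V φ t,
      (∀ a, φ t = some a → SatAx prem z x' a) ∧ ∀ v ∈ V (t + 1), x v = x' v := Iff.rfl

theorem Fc_dep (prem : ι → Finset ι) (z : ι) (V : ℕ → Finset ι) (φ : ℕ → Option (Option ι))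
    (t : ℕ) (x y : ι → ZMod 2) (h : ∀ v ∈ V t, y v = x v) (hx : x ∈ Fc prem z V φ t) :
    y ∈ Fc prem z V φ t := by
  cases t with
  | zero => exact Set.mem_univ _
  | succ t =>
    obtain ⟨x', h1, h2, h3⟩ := hx
    exact ⟨x', h1, h2, fun v hv => (h v hv).trans (h3 v hv)⟩

/-- A refuting trace of variable space at most `s`. -/
structure Good (prem : ι → Finset ι) (z : ι) (s τ : ℕ) (V : ℕ → Finset ι)
    (φ : ℕ → Option (Option ι)) : Prop where
  zero : V 0 = ∅
  last : V τ = ∅
  card : ∀ t ≤ τ, (V t).card ≤ s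
  vars : ∀ t < τ, ∀ a, φ t = some a → axVars prem z a ⊆ V (t + 1)
  refut : Fc prem z V φ τ = ∅

theorem satAx_congr (prem : ι → Finset ι) (z : ι) (x y : ι → ZMod 2) (a : Option ι)
    (h : ∀ v ∈ axVars prem z a, x v = y v) (hx : SatAx prem z x a) : SatAx prem z y a := by
  cases a with
  | none =>
    have h1 := h z (by simp [axVars])
    simp only [SatAx] at hx ⊢
    rwa [← h1]
  | some v =>
    simp only [SatAx] at hx ⊢
    intro hu
    rw [← h v (by simp [axVars])]
    apply hx
    intro u hu'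
    rw [h u (by simp [axVars, hu'])]
    exact hu u hu'

open Classical in
/-- Removing the variables of `g` from the trace between the times `a` and `b`. -/
theorem Good.elim {prem : ι → Finset ι} {z : ι} {s τ : ℕ} {V : ℕ → Finset ι}
    {φ : ℕ → Option (Option ι)} (hG : Good prem z s τ V φ) (g : Finset ι) (a b : ℕ)
    (hab : a ≤ b) (hbτ : b ≤ τ) (hVa : Disjoint (V a) g) (hVb : Disjoint (V b) g)
    (θ : ι → ZMod 2)
    (hθ : ∀ t, a ≤ t → t < b → ∀ ax, φ t = some ax → ¬ Disjoint (axVars prem z ax) g →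
      ∀ x : ι → ZMod 2, (∀ v ∈ g, x v = θ v) → SatAx prem z x ax) :
    ∃ φ', Good prem z s τ (fun t => if a ≤ t ∧ t ≤ b then V t \ g else V t) φ' := by
  set V' : ℕ → Finset ι := fun t => if a ≤ t ∧ t ≤ b then V t \ g else V t with hV'
  set φ' : ℕ → Option (Option ι) := fun t =>
    if a ≤ t ∧ t < b ∧ ∃ ax, φ t = some ax ∧ ¬ Disjoint (axVars prem z ax) g then none else φ t
    with hφ'
  have hV'sub : ∀ t, V' t ⊆ V t := by
    intro t
    by_cases h : a ≤ t ∧ t ≤ b
    · simp only [hV', if_pos h]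
      exact sdiff_subset
    · simp only [hV', if_neg h]
      exact Subset.refl _
  have hV'a : V' a = V a := by
    simp only [hV', if_pos (show a ≤ a ∧ a ≤ b from ⟨le_rfl, hab⟩)]
    exact sdiff_eq_self_of_disjoint hVa
  have hV'b : V' b = V b := by
    simp only [hV', if_pos (show a ≤ b ∧ b ≤ b from ⟨hab, le_rfl⟩)]
    exact sdiff_eq_self_of_disjoint hVb
  have hV'in : ∀ t, a ≤ t → t ≤ b → V' t = V t \ g := by
    intro t h1 h2
    simp only [hV', if_pos (show a ≤ t ∧ t ≤ b from ⟨h1, h2⟩)]
  have hV'out : ∀ t, (t ≤ a ∨ b ≤ t) → V' t = V t := by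
    intro t h
    by_cases h1 : a ≤ t ∧ t ≤ b
    · rcases h with h | h
      · have : t = a := le_antisymm h h1.1
        rw [this, hV'a]
      · have : t = b := le_antisymm h1.2 h
        rw [this, hV'b]
    · simp only [hV', if_neg h1]
  have hφ'out : ∀ t, (t < a ∨ b ≤ t) → φ' t = φ t := by
    intro t h
    have : ¬ (a ≤ t ∧ t < b ∧ ∃ ax, φ t = some ax ∧ ¬ Disjoint (axVars prem z ax) g) := by
      rintro ⟨h1, h2, -⟩
      omega
    simp only [hφ', if_neg this]
  have hφ'some : ∀ t ax, φ' t = some ax → φ t = some ax ∧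
      (a ≤ t → t < b → Disjoint (axVars prem z ax) g) := by
    intro t ax h
    by_cases h1 : a ≤ t ∧ t < b ∧ ∃ ax, φ t = some ax ∧ ¬ Disjoint (axVars prem z ax) g
    · simp only [hφ', if_pos h1] at h
      exact absurd h (by simp)
    · simp only [hφ', if_neg h1] at h
      refine ⟨h, fun h2 h3 => ?_⟩
      by_contra h4
      exact h1 ⟨h2, h3, ax, h, h4⟩
  have hφ'keep : ∀ t ax, a ≤ t → t < b → φ t = some ax → Disjoint (axVars prem z ax) g →
      φ' t = some ax := by
    intro t ax h1 h2 h3 h4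
    have : ¬ (a ≤ t ∧ t < b ∧ ∃ ax, φ t = some ax ∧ ¬ Disjoint (axVars prem z ax) g) := by
      rintro ⟨-, -, ax', h5, h6⟩
      rw [h3] at h5
      obtain rfl := Option.some.inj h5
      exact h6 h4
    simp only [hφ', if_neg this]
    exact h3
  -- the traces
  have hbefore : ∀ t, t ≤ a → Fc prem z V' φ' t = Fc prem z V φ t := by
    intro t
    induction t with
    | zero => intro _; rfl
    | succ t ih =>
      intro ht
      have h1 := ih (by omega)
      have h2 := hV'out (t + 1) (Or.inl ht)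
      have h3 := hφ'out t (Or.inl (by omega))
      simp only [Fc, h1, h2, h3]
  let ov : (ι → ZMod 2) → (ι → ZMod 2) := fun x v => if v ∈ g then θ v else x v
  have hovg : ∀ x, ∀ v ∈ g, ov x v = θ v := fun x v hv => if_pos hv
  have hovn : ∀ x, ∀ v, v ∉ g → ov x v = x v := fun x v hv => if_neg hv
  have hmid : ∀ k, a + k ≤ b → ∀ x ∈ Fc prem z V' φ' (a + k), ov x ∈ Fc prem z V φ (a + k) := by
    intro k
    induction k with
    | zero =>
      intro _ x hx
      rw [Nat.add_zero] at hx ⊢
      rw [hbefore a le_rfl] at hx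
      refine Fc_dep prem z V φ a x _ ?_ hx
      intro v hv
      exact hovn x v (Finset.disjoint_left.1 hVa hv)
    | succ k ih =>
      intro hk x hx
      rw [← Nat.add_assoc, mem_Fc_succ] at hx ⊢
      obtain ⟨x', h1, h2, h3⟩ := hx
      refine ⟨ov x', ih (by omega) x' h1, ?_, ?_⟩
      · intro ax hax
        by_cases hd : Disjoint (axVars prem z ax) g
        · have h4 := hφ'keep (a + k) ax (by omega) (by omega) hax hd
          refine satAx_congr prem z x' _ ax ?_ (h2 ax h4)
          intro v hv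
          exact (hovn x' v (Finset.disjoint_left.1 hd hv)).symm
        · exact hθ (a + k) (by omega) (by omega) ax hax hd _ (hovg x')
      · intro v hv
        by_cases hvg : v ∈ g
        · rw [hovg _ v hvg, hovg _ v hvg]
        · rw [hovn _ v hvg, hovn _ v hvg]
          apply h3
          rw [hV'in (a + k + 1) (by omega) (by omega)]
          exact mem_sdiff.2 ⟨hv, hvg⟩
  have hatb : Fc prem z V' φ' b ⊆ Fc prem z V φ b := by
    intro x hx
    obtain ⟨k, rfl⟩ := Nat.exists_eq_add_of_le hab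
    have h1 := hmid k le_rfl x hx
    refine Fc_dep prem z V φ (a + k) _ x ?_ h1
    intro v hv
    exact (hovn x v (Finset.disjoint_left.1 hVb hv)).symm
  have hafter : ∀ k, Fc prem z V' φ' (b + k) ⊆ Fc prem z V φ (b + k) := by
    intro k
    induction k with
    | zero => exact hatb
    | succ k ih =>
      intro x hx
      rw [← Nat.add_assoc, mem_Fc_succ] at hx ⊢
      obtain ⟨x', h1, h2, h3⟩ := hx
      refine ⟨x', ih h1, ?_, ?_⟩
      · have := hφ'out (b + k) (Or.inr (by omega))
        rw [this] at h2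
        exact h2
      · have := hV'out (b + k + 1) (Or.inr (by omega))
        rw [this] at h3
        exact h3
  refine ⟨φ', ?_, ?_, ?_, ?_, ?_⟩
  · have := hV'sub 0
    rw [hG.zero] at this
    exact subset_empty.1 this
  · have := hV'sub τ
    rw [hG.last] at this
    exact subset_empty.1 this
  · intro t ht
    exact (card_le_card (hV'sub t)).trans (hG.card t ht)
  · intro t ht ax hax
    obtain ⟨h1, h2⟩ := hφ'some t ax hax
    have h3 := hG.vars t ht ax h1
    by_cases h4 : a ≤ t ∧ t < b
    · rw [hV'in (t + 1) (by omega) (by omega)]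
      intro v hv
      exact mem_sdiff.2 ⟨h3 hv, Finset.disjoint_left.1 (h2 h4.1 h4.2) hv⟩
    · rw [hV'out (t + 1) (by omega)]
      exact h3
  · obtain ⟨k, rfl⟩ := Nat.exists_eq_add_of_le hbτ
    have := hafter k
    rw [hG.refut] at this
    exact Set.subset_empty_iff.1 this

/-- A trace of smallest weight. -/
theorem exists_minimal {prem : ι → Finset ι} {z : ι} {s τ : ℕ} {V : ℕ → Finset ι}
    {φ : ℕ → Option (Option ι)} (hG : Good prem z s τ V φ) :
    ∃ V φ, Good prem z s τ V φ ∧ ∀ V' φ', Good prem z s τ V' φ' →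
      ∑ t ∈ range (τ + 1), (V t).card ≤ ∑ t ∈ range (τ + 1), (V' t).card := by
  classical
  have hex : ∃ n, ∃ V φ, Good prem z s τ V φ ∧ ∑ t ∈ range (τ + 1), (V t).card = n :=
    ⟨_, V, φ, hG, rfl⟩
  obtain ⟨V1, φ1, h1, h2⟩ := Nat.find_spec hex
  refine ⟨V1, φ1, h1, fun V' φ' h' => ?_⟩
  rw [h2]
  exact Nat.find_min' hex ⟨V', φ', h', rfl⟩

/-- In a minimal trace, a group `g` which is touched between `a` and `b` but neither at `a` nor
at `b` is touched by an axiom which is not forced by `θ`. -/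
theorem minimal_use {prem : ι → Finset ι} {z : ι} {s τ : ℕ} {V : ℕ → Finset ι}
    {φ : ℕ → Option (Option ι)} (hG : Good prem z s τ V φ)
    (hmin : ∀ V' φ', Good prem z s τ V' φ' →
      ∑ t ∈ range (τ + 1), (V t).card ≤ ∑ t ∈ range (τ + 1), (V' t).card)
    (g : Finset ι) (a b t₀ : ℕ) (hat : a < t₀) (htb : t₀ < b) (hbτ : b ≤ τ)
    (hVa : Disjoint (V a) g) (hVb : Disjoint (V b) g) (ht₀ : ¬ Disjoint (V t₀) g)
    (θ : ι → ZMod 2) :
    ∃ t, a ≤ t ∧ t < b ∧ ∃ ax, φ t = some ax ∧ ¬ Disjoint (axVars prem z ax) g ∧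
      ∃ x : ι → ZMod 2, (∀ v ∈ g, x v = θ v) ∧ ¬ SatAx prem z x ax := by
  by_contra hcon
  push Not at hcon
  obtain ⟨φ', hφ'⟩ := hG.elim g a b (by omega) hbτ hVa hVb θ (by
    intro t h1 h2 ax h3 h4 x h5
    exact hcon t h1 h2 ax h3 h4 x h5)
  have h1 := hmin _ _ hφ'
  refine absurd h1 (not_le.2 ?_)
  apply Finset.sum_lt_sum
  · intro t _
    split_ifs
    · exact card_le_card sdiff_subset
    · exact le_rfl
  · refine ⟨t₀, mem_range.2 (by omega), ?_⟩
    rw [if_pos ⟨hat.le, htb.le⟩]
    apply card_lt_card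
    refine ⟨sdiff_subset, fun h => ht₀ ?_⟩
    rw [Finset.disjoint_left]
    intro v hv
    exact (mem_sdiff.1 (h hv)).2

/-- The maximal touch interval. -/
theorem touch_interval (P : ℕ → Prop) (A B t₀ : ℕ) (hA : A < t₀) (hB : t₀ < B) (hPA : ¬ P A)
    (hPB : ¬ P B) (ht : P t₀) :
    ∃ a b, A ≤ a ∧ a < t₀ ∧ t₀ < b ∧ b ≤ B ∧ ¬ P a ∧ ¬ P b ∧ ∀ t, a < t → t < b → P t := by
  classical
  have h1 : ∃ k, ¬ P (t₀ + k) := ⟨B - t₀, by rwa [Nat.add_sub_cancel' hB.le]⟩
  have h2 : ∃ k, k ≤ t₀ ∧ ¬ P (t₀ - k) := ⟨t₀ - A, by omega, by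
    have : t₀ - (t₀ - A) = A := by omega
    rwa [this]⟩
  set k1 := Nat.find h1 with hk1
  set k2 := Nat.find h2 with hk2
  have h3 := Nat.find_spec h1
  have h4 := Nat.find_spec h2
  rw [← hk1] at h3
  rw [← hk2] at h4
  have h5 : k1 ≤ B - t₀ := Nat.find_min' h1 (by rwa [Nat.add_sub_cancel' hB.le])
  have h6 : k2 ≤ t₀ - A := Nat.find_min' h2 ⟨by omega, by
    have : t₀ - (t₀ - A) = A := by omega
    rwa [this]⟩
  have h7 : 0 < k1 := by
    rcases Nat.eq_zero_or_pos k1 with h | h
    · rw [h] at h3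
      exact absurd ht h3
    · exact h
  have h8 : 0 < k2 := by
    rcases Nat.eq_zero_or_pos k2 with h | h
    · rw [h] at h4
      exact absurd ht h4.2
    · exact h
  refine ⟨t₀ - k2, t₀ + k1, by omega, by omega, by omega, by omega, h4.2, h3, ?_⟩
  intro t hat htb
  rcases le_or_gt t₀ t with h | h
  · by_contra hP
    have := Nat.find_min' h1 (m := t - t₀) (by rwa [Nat.add_sub_cancel' h])
    omega
  · by_contra hP
    have := Nat.find_min' h2 (m := t₀ - t) ⟨by omega, by
      have : t₀ - (t₀ - t) = t := by omega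
      rwa [this]⟩
    omega

end Trace

section Layered

variable {L q : ℕ}

/-- The group of variables of the `j`-th chain of the layer `i`. -/
def grp (L q : ℕ) (i : Fin (L + 1)) (j : Fin (q + 1)) : Finset (BV L q) :=
  univ.filter fun v => v.1 = i ∧ v.2.1 = j

theorem mem_grp {i : Fin (L + 1)} {j : Fin (q + 1)} {v : BV L q} :
    v ∈ grp L q i j ↔ v.1 = i ∧ v.2.1 = j := by
  simp [grp]

theorem mem_bprem {u v : BV L q} : u ∈ bprem L q v ↔
    (u.1 = v.1 ∧ u.2.1 = v.2.1 ∧ (u.2.2 : ℕ) + 1 = (v.2.2 : ℕ)) ∨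
    ((u.1 : ℕ) + 1 = (v.1 : ℕ) ∧ u.2.1 = v.2.2 ∧ u.2.2 = Fin.last q) := by
  simp [bprem]

/-- The assignment which is `1` on the first `m` vertices of every chain. -/
def thr (m : Fin (q + 1)) (v : BV L q) : ZMod 2 := if v.2.2 < m then 1 else 0

theorem forced (i : Fin (L + 1)) (j m : Fin (q + 1)) (ax : Option (BV L q))
    (hd : ¬ Disjoint (axVars (bprem L q) (bsink L q) ax) (grp L q i j))
    (x : BV L q → ZMod 2) (hx : ∀ v ∈ grp L q i j, x v = thr m v)
    (hs : ¬ SatAx (bprem L q) (bsink L q) x ax) : ax = some (i, j, m) := by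
  have h01 : (0 : ZMod 2) ≠ 1 := by decide
  have hlast : ∀ w ∈ grp L q i j, w.2.2 = Fin.last q → x w = 0 := by
    intro w hw h
    rw [hx w hw, thr, if_neg]
    rw [h]
    exact not_lt.2 (Fin.le_last m)
  cases ax with
  | none =>
    exfalso
    simp only [SatAx, not_not] at hs
    have h1 : bsink L q ∈ grp L q i j := by
      by_contra h
      apply hd
      simpa [axVars] using h
    exact h01 ((hlast _ h1 rfl).symm.trans hs)
  | some v =>
    simp only [SatAx, not_forall] at hs
    obtain ⟨h1, h2⟩ := hs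
    by_cases hv : v ∈ grp L q i j
    · have h3 := hx v hv
      have h4 : ¬ v.2.2 < m := by
        intro h
        rw [thr, if_pos h] at h3
        exact h2 h3
      have h5 : ¬ m < v.2.2 := by
        intro h
        have h6 : (v.2.2 : ℕ) ≠ 0 := by
          have : (m : ℕ) < v.2.2 := h
          omega
        let u : BV L q := (v.1, v.2.1, ⟨(v.2.2 : ℕ) - 1, by omega⟩)
        have hu : u ∈ bprem L q v := by
          rw [mem_bprem]
          left
          refine ⟨rfl, rfl, ?_⟩
          show (v.2.2 : ℕ) - 1 + 1 = v.2.2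
          omega
        have hug : u ∈ grp L q i j := mem_grp.2 ⟨(mem_grp.1 hv).1, (mem_grp.1 hv).2⟩
        have h7 := h1 u hu
        rw [hx u hug, thr, if_neg] at h7
        · exact h01 h7
        · intro h8
          have h9 : (v.2.2 : ℕ) - 1 < m := h8
          have h10 : (m : ℕ) < v.2.2 := h
          omega
      have h6 : v.2.2 = m := le_antisymm (not_lt.1 h5) (not_lt.1 h4)
      obtain ⟨h7, h8⟩ := mem_grp.1 hv
      rw [← h7, ← h8, ← h6]
    · exfalso
      rw [Finset.not_disjoint_iff] at hd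
      obtain ⟨w, hw, hwg⟩ := hd
      simp only [axVars, mem_insert] at hw
      rcases hw with rfl | hw
      · exact hv hwg
      · rcases mem_bprem.1 hw with h | h
        · apply hv
          obtain ⟨h3, h4⟩ := mem_grp.1 hwg
          exact mem_grp.2 ⟨h.1 ▸ h3, h.2.1 ▸ h4⟩
        · have h3 := hlast w hwg h.2.2
          exact h01 (h3.symm.trans (h1 w hw))

theorem no_good (L q s : ℕ) (hL : s ≤ L) (hq : 2 * s ≤ q) (τ : ℕ) (V : ℕ → Finset (BV L q))
    (φ : ℕ → Option (Option (BV L q))) (hG : Good (bprem L q) (bsink L q) s τ V φ)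
    (hmin : ∀ V' φ', Good (bprem L q) (bsink L q) s τ V' φ' →
      ∑ t ∈ range (τ + 1), (V t).card ≤ ∑ t ∈ range (τ + 1), (V' t).card) : False := by
  -- the sink axiom is used
  have hsink : ∃ t < τ, φ t = some none := by
    by_contra hcon
    push Not at hcon
    have h1 : ∀ t ≤ τ, (fun _ => 1 : BV L q → ZMod 2) ∈
        Fc (bprem L q) (bsink L q) V φ t := by
      intro t
      induction t with
      | zero => intro _; exact Set.mem_univ _
      | succ t ih =>
        intro ht
        refine ⟨_, ih (by omega), ?_, fun v _ => rfl⟩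
        intro a ha
        cases a with
        | none => exact absurd ha (hcon t (by omega))
        | some v => intro _; rfl
    have h2 := h1 τ le_rfl
    rw [hG.refut] at h2
    exact h2
  obtain ⟨ts, hts, hφs⟩ := hsink
  have hmain : ∀ k, (hk : k ≤ L) → ∃ (j : Fin (q + 1)) (a b tt : ℕ), a < tt ∧ tt < b ∧ b ≤ τ ∧
      Disjoint (V a) (grp L q ⟨L - k, by omega⟩ j) ∧
      Disjoint (V b) (grp L q ⟨L - k, by omega⟩ j) ∧
      (∀ t, a < t → t < b → ¬ Disjoint (V t) (grp L q ⟨L - k, by omega⟩ j)) ∧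
      ∀ t, a < t → t < b → ∀ i : Fin (L + 1), L - k ≤ (i : ℕ) → ∃ v ∈ V t, v.1 = i := by
    intro k
    induction k with
    | zero =>
      intro _
      have h1 := hG.vars ts hts none hφs
      have h2 : bsink L q ∈ V (ts + 1) := h1 (by simp [axVars])
      have hbg : bsink L q ∈ grp L q ⟨L - 0, by omega⟩ 0 := by
        rw [mem_grp]
        exact ⟨Fin.ext rfl, rfl⟩
      have h3 : ts + 1 ≠ τ := by
        intro h
        rw [h, hG.last] at h2
        exact absurd h2 (notMem_empty _)
      obtain ⟨a, b, -, h5, h6, h7, h8, h9, h10⟩ := touch_interval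
        (fun t => ¬ Disjoint (V t) (grp L q ⟨L - 0, by omega⟩ 0)) 0 τ (ts + 1) (by omega)
        (by omega) (by rw [hG.zero]; simp) (by rw [hG.last]; simp)
        (Finset.not_disjoint_iff.2 ⟨_, h2, hbg⟩)
      refine ⟨0, a, b, ts + 1, h5, h6, h7, not_not.1 h8, not_not.1 h9, h10, ?_⟩
      intro t hat htb i hi
      obtain ⟨v, hv, hvg⟩ := Finset.not_disjoint_iff.1 (h10 t hat htb)
      refine ⟨v, hv, ?_⟩
      rw [(mem_grp.1 hvg).1]
      apply Fin.ext
      have := i.2
      simp only
      omega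
    | succ k ih =>
      intro hk
      obtain ⟨j, a, b, tt, hat, htb, hbτ, hVa, hVb, htouch, hlay⟩ := ih (by omega)
      -- an untouched group of the next layer
      obtain ⟨m, hm⟩ : ∃ m : Fin (q + 1), m ∉ (V a ∪ V b).image fun v => v.2.1 := by
        by_contra hcon
        push Not at hcon
        have h1 : (univ : Finset (Fin (q + 1))) ⊆ (V a ∪ V b).image fun v => v.2.1 :=
          fun m _ => hcon m
        have h2 := card_le_card h1
        have h3 := card_image_le (s := V a ∪ V b) (f := fun v => v.2.1)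
        have h4 := card_union_le (V a) (V b)
        have h5 := hG.card a (by omega)
        have h6 := hG.card b hbτ
        rw [card_univ, Fintype.card_fin] at h2
        omega
      have hunt : ∀ c, (c = a ∨ c = b) →
          Disjoint (V c) (grp L q ⟨L - (k + 1), by omega⟩ m) := by
        intro c hc
        rw [Finset.disjoint_left]
        intro v hv hvg
        apply hm
        rw [mem_image]
        refine ⟨v, ?_, (mem_grp.1 hvg).2⟩
        rcases hc with rfl | rfl
        · exact mem_union_left _ hv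
        · exact mem_union_right _ hv
      obtain ⟨t, h1, h2, ax, h3, h4, x, h5, h6⟩ := minimal_use hG hmin
        (grp L q ⟨L - k, by omega⟩ j) a b tt hat htb hbτ hVa hVb (htouch tt hat htb) (thr m)
      have h7 := forced _ j m ax h4 x h5 h6
      subst h7
      have h8 := hG.vars t (by omega) _ h3
      have h9 : ((⟨L - k, by omega⟩, j, m) : BV L q) ∈ V (t + 1) := h8 (by simp [axVars])
      have h10 : ((⟨L - (k + 1), by omega⟩, m, Fin.last q) : BV L q) ∈ V (t + 1) := by
        apply h8
        simp only [axVars, mem_insert]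
        right
        rw [mem_bprem]
        right
        refine ⟨?_, rfl, rfl⟩
        show L - (k + 1) + 1 = L - k
        omega
      have h11 : t + 1 ≠ b := by
        intro h
        rw [h] at h9
        exact Finset.disjoint_left.1 hVb h9 (mem_grp.2 ⟨rfl, rfl⟩)
      have h12 : ¬ Disjoint (V (t + 1)) (grp L q ⟨L - (k + 1), by omega⟩ m) :=
        Finset.not_disjoint_iff.2 ⟨_, h10, mem_grp.2 ⟨rfl, rfl⟩⟩
      obtain ⟨a', b', g1, g2, g3, g4, g5, g6, g7⟩ := touch_interval
        (fun t => ¬ Disjoint (V t) (grp L q ⟨L - (k + 1), by omega⟩ m)) a b (t + 1) (by omega)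
        (by omega) (not_not.2 (hunt a (Or.inl rfl))) (not_not.2 (hunt b (Or.inr rfl))) h12
      refine ⟨m, a', b', t + 1, g2, g3, by omega, not_not.1 g5, not_not.1 g6, g7, ?_⟩
      intro u hu1 hu2 i hi
      rcases Nat.eq_or_lt_of_le hi with h | h
      · obtain ⟨v, hv, hvg⟩ := Finset.not_disjoint_iff.1 (g7 u hu1 hu2)
        refine ⟨v, hv, ?_⟩
        rw [(mem_grp.1 hvg).1]
        exact Fin.ext h
      · exact hlay u (by omega) (by omega) i (by omega)
  obtain ⟨j, a, b, tt, hat, htb, hbτ, -, -, -, hlay⟩ := hmain L le_rfl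
  have h1 : (univ : Finset (Fin (L + 1))) ⊆ (V tt).image fun v => v.1 := by
    intro i _
    obtain ⟨v, hv, h⟩ := hlay tt hat htb i (by omega)
    exact mem_image.2 ⟨v, hv, h⟩
  have h2 := card_le_card h1
  have h3 := card_image_le (s := V tt) (f := fun v => v.1)
  have h4 := hG.card tt (by omega)
  rw [card_univ, Fintype.card_fin] at h2
  omega

/-- Variable space of the layered pebbling formula: every semantic refutation, in which the
configurations are given by sets `F t` of assignments depending on the variables in `V t` only,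
has a configuration with more than `s` variables. -/
theorem base_lower (L q s : ℕ) (hL : s ≤ L) (hq : 2 * s ≤ q) (τ : ℕ)
    (F : ℕ → Set (BV L q → ZMod 2)) (V : ℕ → Finset (BV L q))
    (φ : ℕ → Option (Option (BV L q)))
    (h0 : F 0 = Set.univ) (hτ : F τ = ∅) (hV0 : V 0 = ∅)
    (hdep : ∀ t ≤ τ, ∀ x x' : BV L q → ZMod 2, (∀ v ∈ V t, x v = x' v) → x ∈ F t → x' ∈ F t)
    (hstep : ∀ t < τ, ∀ x ∈ F t,
      (∀ a, φ t = some a → SatAx (bprem L q) (bsink L q) x a) → x ∈ F (t + 1))
    (hφ : ∀ t < τ, ∀ a, φ t = some a → axVars (bprem L q) (bsink L q) a ⊆ V (t + 1)) :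
    ∃ t ≤ τ, s < (V t).card := by
  by_contra hcon
  push Not at hcon
  -- append a last step with no variables
  let V1 : ℕ → Finset (BV L q) := fun t => if t ≤ τ then V t else ∅
  let φ1 : ℕ → Option (Option (BV L q)) := fun t => if t < τ then φ t else none
  have hV1 : ∀ t ≤ τ, V1 t = V t := fun t ht => if_pos ht
  have hφ1 : ∀ t < τ, φ1 t = φ t := fun t ht => if_pos ht
  have hsub : ∀ t ≤ τ, Fc (bprem L q) (bsink L q) V1 φ1 t ⊆ F t := by
    intro t
    induction t with
    | zero => intro _; rw [h0]; exact Set.subset_univ _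
    | succ t ih =>
      rintro ht x ⟨x', h1, h2, h3⟩
      rw [hφ1 t (by omega)] at h2
      rw [hV1 (t + 1) ht] at h3
      have h4 := hstep t (by omega) x' (ih (by omega) h1) h2
      exact hdep (t + 1) ht x' x (fun v hv => (h3 v hv).symm) h4
  have hempty : Fc (bprem L q) (bsink L q) V1 φ1 τ = ∅ := by
    have := hsub τ le_rfl
    rw [hτ] at this
    exact Set.subset_empty_iff.1 this
  have hG : Good (bprem L q) (bsink L q) s (τ + 1) V1 φ1 := by
    refine ⟨?_, ?_, ?_, ?_, ?_⟩
    · rw [hV1 0 (Nat.zero_le _), hV0]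
    · exact if_neg (by omega)
    · intro t _
      by_cases h : t ≤ τ
      · rw [hV1 t h]
        exact hcon t h
      · have : V1 t = ∅ := if_neg h
        rw [this]
        simp
    · intro t ht a ha
      by_cases h : t < τ
      · rw [hφ1 t h] at ha
        rw [hV1 (t + 1) h]
        exact hφ t h a ha
      · have h1 : φ1 t = none := if_neg h
        rw [h1] at ha
        exact absurd ha (by simp)
    · rw [Set.eq_empty_iff_forall_notMem]
      rintro x ⟨x', h1, -, -⟩
      rw [hempty] at h1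
      exact h1
  obtain ⟨V2, φ2, h1, h2⟩ := exists_minimal hG
  exact no_good L q s hL hq (τ + 1) V2 φ2 h1 h2

end Layered

end Pool.Agent.H56.TSp
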