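import Mathlib

/-!
# Superlinear total space for resolution: definitions

Literals, clauses, resolution, space-aware refutations, total space; the layered pebbling graph
and the lifted (XOR-substituted, hardness condensed) formula.
-/

namespace Pool.Agent.H56.TSp

open Finset

/-- A clause over the variables `V`: a finite set of literals; the literal `(x, true)` is `x`,
the literal `(x, false)` is `¬ x`. -/
abbrev Clause (V : Type*) := Finset (V × Bool)

section Resolution

variable {V : Type*} [DecidableEq V]

/-- `R` is the resolvent of `A = C ∨ x` and `B = D ∨ ¬ x`, i.e. `R = C ∨ D`. -/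
def Resolvent (A B R : Clause V) : Prop :=
  ∃ x : V, (x, true) ∈ A ∧ (x, false) ∈ B ∧ R = A.erase (x, true) ∪ B.erase (x, false)

/-- The sequence `D 0, …, D m` (of `m + 1` clauses) is a resolution refutation of `F`: every
clause is in `F` or is the resolvent of two earlier clauses, and the last one is the empty
clause. -/
def IsRefutation (F : Finset (Clause V)) (m : ℕ) (D : ℕ → Clause V) : Prop :=
  (∀ i ≤ m, D i ∈ F ∨ ∃ j < i, ∃ k < i, Resolvent (D j) (D k) (D i)) ∧ D m = ∅

/-- One step of a space-aware refutation: adding a clause of `F`, adding the resolvent of two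
clauses of the configuration, or deleting clauses. -/
inductive Step (F : Finset (Clause V)) : Finset (Clause V) → Finset (Clause V) → Prop
  | ax (C : Finset (Clause V)) (D : Clause V) : D ∈ F → Step F C (insert D C)
  | res (C : Finset (Clause V)) (A B R : Clause V) :
      A ∈ C → B ∈ C → Resolvent A B R → Step F C (insert R C)
  | del (C C' : Finset (Clause V)) : C' ⊆ C → Step F C C'

/-- The sequence of configurations `C 0, …, C t` is a space-aware resolution refutation
of `F`. -/
def IsSpaceRefutation (F : Finset (Clause V)) (t : ℕ) (C : ℕ → Finset (Clause V)) : Prop :=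
  C 0 = ∅ ∧ (∀ i < t, Step F (C i) (C (i + 1))) ∧ ∅ ∈ C t

/-- The total space of a configuration: the number of literal occurrences in it. -/
def totalSpace (C : Finset (Clause V)) : ℕ := ∑ D ∈ C, D.card

end Resolution

section Pebbling

variable {ι : Type*} [DecidableEq ι]

/-- The axioms of the pebbling formula of a directed acyclic graph `prem` with sink `z`:
`none` is the sink axiom `¬ z`, and `some v` is the axiom `(⋀ u ∈ prem v, u) → v`. The
predicate says that the assignment `x` satisfies the axiom. -/
def SatAx (prem : ι → Finset ι) (z : ι) (x : ι → ZMod 2) : Option ι → Prop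
  | none => x z ≠ 1
  | some v => (∀ u ∈ prem v, x u = 1) → x v = 1

/-- The variables of an axiom. -/
def axVars (prem : ι → Finset ι) (z : ι) : Option ι → Finset ι
  | none => {z}
  | some v => insert v (prem v)

/-- Vertices of the layered graph: `(i, j, m)` is the `m`-th vertex of the `j`-th chain of the
layer `i`. -/
abbrev BV (L q : ℕ) := Fin (L + 1) × Fin (q + 1) × Fin (q + 1)

/-- The predecessors of `(i, j, m)` are `(i, j, m - 1)` (if `m > 0`) and the last vertex
`(i - 1, m, q)` of the `m`-th chain of the layer `i - 1` (if `i > 0`). -/
def bprem (L q : ℕ) (v : BV L q) : Finset (BV L q) :=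
  univ.filter fun u =>
    (u.1 = v.1 ∧ u.2.1 = v.2.1 ∧ (u.2.2 : ℕ) + 1 = (v.2.2 : ℕ)) ∨
    ((u.1 : ℕ) + 1 = (v.1 : ℕ) ∧ u.2.1 = v.2.2 ∧ u.2.2 = Fin.last q)

/-- The sink: the last vertex of the chain `0` of the top layer. -/
def bsink (L q : ℕ) : BV L q := (Fin.last L, 0, Fin.last q)

end Pebbling

section Lift

variable {ι J : Type*} [DecidableEq ι] [DecidableEq J] [Fintype ι] [Fintype J]

/-- The parity of `y` on the neighbourhood of `v`. -/
def par (nb : ι → Finset J) (y : J → ZMod 2) (v : ι) : ZMod 2 := ∑ j ∈ nb v, y j

/-- The clause with variables `S` which is falsified exactly by the assignments that agree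
with `y` on `S`. -/
def fullClause (S : Finset J) (y : J → ZMod 2) : Clause J :=
  S.image fun j => (j, decide (y j = 0))

open Classical in
/-- The lifted formula: every axiom `a` of the pebbling formula is replaced by the canonical
CNF (over the variables `⋃ nb v`, `v` a variable of `a`) of `a` with the variable `v` replaced
by the parity of the `y`-variables in `nb v`. -/
noncomputable def liftedCNF (nb : ι → Finset J) (prem : ι → Finset ι) (z : ι) :
    Finset (Clause J) :=
  univ.biUnion fun a : Option ι =>
    (univ.filter fun y : J → ZMod 2 => ¬ SatAx prem z (par nb y) a).image fun y =>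
      fullClause ((axVars prem z a).biUnion nb) y

end Lift

end Pool.Agent.H56.TSp
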