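import Pool.Agent.H56.TSp.LinDefs

/-!
# Existence of boundary expanders (helper28, job TSP-B)

A uniformly random function is counted.
-/

namespace Pool.Agent.H56.TSp

open Finset

/-- `k ^ k ≤ 3 ^ k * k!` -/
theorem pow_self_le (k : ℕ) : k ^ k ≤ 3 ^ k * k.factorial := by
  have h1 : (k : ℝ) ^ k / k.factorial ≤ Real.exp k := Real.pow_div_factorial_le_exp _ (by positivity) _
  have h2 : Real.exp k ≤ 3 ^ k := by
    have : Real.exp (k : ℝ) = Real.exp 1 ^ k := by
      rw [← Real.exp_nat_mul, mul_one]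
    rw [this]
    exact pow_le_pow_left₀ (Real.exp_pos _).le (Real.exp_one_lt_d9.le.trans (by norm_num)) _
  have h3 : (0 : ℝ) < k.factorial := by exact_mod_cast k.factorial_pos
  rw [div_le_iff₀ h3] at h1
  have h4 : (k : ℝ) ^ k ≤ 3 ^ k * k.factorial :=
    h1.trans (mul_le_mul_of_nonneg_right h2 h3.le)
  exact_mod_cast h4

/-- `C(n,k) k^k ≤ 3^k n^k` -/
theorem choose_mul_pow_le (n k : ℕ) : n.choose k * k ^ k ≤ 3 ^ k * n ^ k := by
  calc n.choose k * k ^ k ≤ n.choose k * (3 ^ k * k.factorial) :=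
        Nat.mul_le_mul_left _ (pow_self_le k)
    _ = 3 ^ k * (k.factorial * n.choose k) := by ring
    _ = 3 ^ k * n.descFactorial k := by rw [Nat.descFactorial_eq_factorial_mul_choose]
    _ ≤ 3 ^ k * n ^ k := Nat.mul_le_mul_left _ (Nat.descFactorial_le_pow n k)

/-- the functions which map everything over `X` into `U` -/
def PF {N n : ℕ} (d : ℕ) (X : Finset (Fin N)) (U : Finset (Fin n)) :
    Finset (Fin N → Fin d → Fin n) :=
  Fintype.piFinset fun v => if v ∈ X then Fintype.piFinset (fun _ => U) else univ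

theorem PF_card {N n : ℕ} (d : ℕ) (X : Finset (Fin N)) (U : Finset (Fin n)) :
    (PF d X U).card = (U.card ^ d) ^ X.card * (n ^ d) ^ (N - X.card) := by
  unfold PF
  rw [Fintype.card_piFinset]
  have h1 : ∀ v : Fin N, (if v ∈ X then Fintype.piFinset (fun _ : Fin d => U) else univ).card =
      if v ∈ X then U.card ^ d else n ^ d := by
    intro v
    split_ifs
    · rw [Fintype.card_piFinset]
      simp
    · simp
  rw [prod_congr rfl fun v _ => h1 v, prod_ite]
  simp only [prod_const]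
  congr 2
  · simp
  · rw [filter_not, card_sdiff_of_subset (filter_subset _ _)]
    simp

/-- the key numerical estimate -/
theorem key_ineq (D C q N m : ℕ) (hD : 1 ≤ D) (hN : N ≤ C * q ^ (4 * D)) (hm : m ≤ C * q ^ (D - 1))
    (hmN : m ≤ N)
    (hq : 2 * C * 3 ^ (4 * D + 3) * ((4 * D + 3) * C) ^ (4 * D + 1) ≤ q) :
    2 ^ m * (N.choose m * (q ^ D).choose ((4 * D + 3) * m) *
      ((((4 * D + 3) * m) ^ (8 * D + 4)) ^ m * ((q ^ D) ^ (8 * D + 4)) ^ (N - m))) ≤
      ((q ^ D) ^ (8 * D + 4)) ^ N := by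
  set g := 4 * D + 3 with hg
  set n := q ^ D with hn
  set k := g * m with hk
  have h1 : (k ^ (8 * D + 4)) ^ m = k ^ k * (k ^ (4 * D + 1)) ^ m := by
    rw [← pow_mul, ← pow_mul, ← pow_add]
    congr 1
    rw [hk, hg]
    ring
  have h2 : (n ^ (8 * D + 4)) ^ N = (n ^ (8 * D + 4)) ^ m * (n ^ (8 * D + 4)) ^ (N - m) := by
    rw [← pow_add]
    congr 1
    omega
  rw [h1, h2]
  have h3 : 2 * N * 3 ^ g * k ^ (4 * D + 1) ≤ n ^ (4 * D + 1) := by
    have e1 : n = q * q ^ (D - 1) := by
      rw [hn, ← pow_succ']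
      congr 1
      omega
    calc 2 * N * 3 ^ g * k ^ (4 * D + 1)
        ≤ 2 * (C * q ^ (4 * D)) * 3 ^ g * (g * (C * q ^ (D - 1))) ^ (4 * D + 1) := by
          refine Nat.mul_le_mul (Nat.mul_le_mul_right _ (Nat.mul_le_mul_left _ hN))
            (Nat.pow_le_pow_left ?_ _)
          rw [hk]
          exact Nat.mul_le_mul_left _ hm
      _ = (2 * C * 3 ^ g * (g * C) ^ (4 * D + 1)) * (q ^ (4 * D) * (q ^ (D - 1)) ^ (4 * D + 1)) := by
          rw [← mul_assoc g C, mul_pow (g * C)]
          ring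
      _ ≤ q * (q ^ (4 * D) * (q ^ (D - 1)) ^ (4 * D + 1)) := Nat.mul_le_mul_right _ hq
      _ = n ^ (4 * D + 1) := by
          rw [e1, mul_pow, pow_succ' q (4 * D)]
          ring
  have h4 : N.choose m ≤ N ^ m := Nat.choose_le_pow N m
  have h5 : n.choose k * k ^ k ≤ 3 ^ k * n ^ k := choose_mul_pow_le n k
  have h6 : 2 ^ m * N ^ m * 3 ^ k * (k ^ (4 * D + 1)) ^ m =
      (2 * N * 3 ^ g * k ^ (4 * D + 1)) ^ m := by
    rw [mul_pow (2 * N * 3 ^ g), mul_pow (2 * N), mul_pow 2 N, ← pow_mul 3 g m]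
  clear_value n k g
  have h7 : (n ^ (4 * D + 1)) ^ m * n ^ k = (n ^ (8 * D + 4)) ^ m := by
    rw [← pow_mul, ← pow_mul, ← pow_add]
    congr 1
    rw [hk, hg]
    ring
  calc 2 ^ m * (N.choose m * n.choose k * (k ^ k * (k ^ (4 * D + 1)) ^ m *
        (n ^ (8 * D + 4)) ^ (N - m)))
      = (2 ^ m * N.choose m) * (n.choose k * k ^ k) * ((k ^ (4 * D + 1)) ^ m *
        (n ^ (8 * D + 4)) ^ (N - m)) := by ring
    _ ≤ (2 ^ m * N ^ m) * (3 ^ k * n ^ k) * ((k ^ (4 * D + 1)) ^ m *
        (n ^ (8 * D + 4)) ^ (N - m)) :=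
        Nat.mul_le_mul_right _ (Nat.mul_le_mul (Nat.mul_le_mul_left _ h4) h5)
    _ = (2 ^ m * N ^ m * 3 ^ k * (k ^ (4 * D + 1)) ^ m) * (n ^ k * (n ^ (8 * D + 4)) ^ (N - m)) := by
        ring
    _ = (2 * N * 3 ^ g * k ^ (4 * D + 1)) ^ m * (n ^ k * (n ^ (8 * D + 4)) ^ (N - m)) := by
        rw [h6]
    _ ≤ (n ^ (4 * D + 1)) ^ m * (n ^ k * (n ^ (8 * D + 4)) ^ (N - m)) :=
        Nat.mul_le_mul_right _ (Nat.pow_le_pow_left h3 m)
    _ = (n ^ (8 * D + 4)) ^ m * (n ^ (8 * D + 4)) ^ (N - m) := by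
        rw [← mul_assoc, h7]

/-- the summation -/
theorem sum_lt (A : ℕ) (hA : 0 < A) (T : ℕ → ℕ) (l : ℕ) (h : ∀ m ∈ Icc 1 l, 2 ^ m * T m ≤ A) :
    ∑ m ∈ Icc 1 l, T m < A := by
  have key : ∀ l, (∀ m ∈ Icc 1 l, 2 ^ m * T m ≤ A) → 2 ^ l * ∑ m ∈ Icc 1 l, T m + A ≤ 2 ^ l * A := by
    intro l
    induction l with
    | zero => intro _; simp
    | succ l ih =>
      intro h
      have h1 := ih fun m hm => h m (by
        rw [mem_Icc] at hm ⊢
        omega)
      have h2 := h (l + 1) (by rw [mem_Icc]; omega)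
      rw [sum_Icc_succ_top (by omega), mul_add]
      have h3 : 2 ^ (l + 1) * ∑ m ∈ Icc 1 l, T m = 2 * (2 ^ l * ∑ m ∈ Icc 1 l, T m) := by ring
      have h4 : 2 ^ (l + 1) * A = 2 * (2 ^ l * A) := by ring
      rw [h3, h4]
      omega
  have h1 := key l h
  by_contra hcon
  push Not at hcon
  have := Nat.mul_le_mul_left (2 ^ l) hcon
  omega

/-- a function which expands -/
theorem exists_good (D C q N : ℕ) (hD : 1 ≤ D) (hN : N ≤ C * q ^ (4 * D)) (hq0 : 1 ≤ q)
    (hq1 : (4 * D + 3) * C ≤ q)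
    (hq : 2 * C * 3 ^ (4 * D + 3) * ((4 * D + 3) * C) ^ (4 * D + 1) ≤ q) :
    ∃ f : Fin N → Fin (8 * D + 4) → Fin (q ^ D), ∀ X : Finset (Fin N),
      X.card ≤ C * q ^ (D - 1) →
      (4 * D + 3) * X.card ≤ (X.biUnion fun v => univ.image (f v)).card := by
  classical
  set g := 4 * D + 3 with hg
  set d := 8 * D + 4 with hd
  set n := q ^ D with hn
  set l := C * q ^ (D - 1) with hl
  have hn0 : 0 < n := by rw [hn]; positivity
  have hgl : g * l ≤ n := by
    have e1 : n = q * q ^ (D - 1) := by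
      rw [hn, ← pow_succ']
      congr 1
      omega
    rw [hl, ← mul_assoc, e1]
    exact Nat.mul_le_mul_right _ hq1
  by_contra hcon
  push Not at hcon
  have hcov : (univ : Finset (Fin N → Fin d → Fin n)) ⊆
      (Icc 1 l).biUnion fun m => (powersetCard m univ).biUnion fun X =>
        (powersetCard (g * m) univ).biUnion fun U => PF d X U := by
    intro f _
    obtain ⟨X, hX1, hX2⟩ := hcon f
    have hX0 : 1 ≤ X.card := by
      by_contra h0
      have : X.card = 0 := by omega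
      rw [this] at hX2
      omega
    have hc : g * X.card ≤ n := (Nat.mul_le_mul_left g hX1).trans hgl
    obtain ⟨U, hU1, -, hU2⟩ := Finset.exists_subsuperset_card_eq
      (subset_univ (X.biUnion fun v => univ.image (f v))) hX2.le (by simpa using hc)
    simp only [mem_biUnion, mem_powersetCard, mem_Icc]
    refine ⟨X.card, ⟨hX0, hX1⟩, X, ⟨subset_univ _, rfl⟩, U, ⟨subset_univ _, hU2⟩, ?_⟩
    unfold PF
    rw [Fintype.mem_piFinset]
    intro v
    split_ifs with hv
    · rw [Fintype.mem_piFinset]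
      intro k
      exact hU1 (mem_biUnion.2 ⟨v, hv, mem_image_of_mem _ (mem_univ k)⟩)
    · exact mem_univ _
  have hcard := card_le_card hcov
  have hub : ((Icc 1 l).biUnion fun m => (powersetCard m (univ : Finset (Fin N))).biUnion fun X =>
        (powersetCard (g * m) (univ : Finset (Fin n))).biUnion fun U => PF d X U).card ≤
      ∑ m ∈ Icc 1 l, N.choose m * n.choose (g * m) *
        (((g * m) ^ d) ^ m * (n ^ d) ^ (N - m)) := by
    refine card_biUnion_le.trans (sum_le_sum fun m _ => ?_)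
    refine card_biUnion_le.trans ?_
    have h1 : ∀ X ∈ powersetCard m (univ : Finset (Fin N)),
        ((powersetCard (g * m) (univ : Finset (Fin n))).biUnion fun U => PF d X U).card ≤
          n.choose (g * m) * (((g * m) ^ d) ^ m * (n ^ d) ^ (N - m)) := by
      intro X hX
      rw [mem_powersetCard] at hX
      refine card_biUnion_le.trans ?_
      have h2 : ∀ U ∈ powersetCard (g * m) (univ : Finset (Fin n)), (PF d X U).card =
          ((g * m) ^ d) ^ m * (n ^ d) ^ (N - m) := by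
        intro U hU
        rw [mem_powersetCard] at hU
        rw [PF_card, hX.2, hU.2]
      rw [sum_congr rfl h2, sum_const, card_powersetCard, card_univ, Fintype.card_fin,
        smul_eq_mul]
    refine (sum_le_sum h1).trans ?_
    rw [sum_const, card_powersetCard, card_univ, Fintype.card_fin, smul_eq_mul, mul_assoc]
  have hlt : ∑ m ∈ Icc 1 l, N.choose m * n.choose (g * m) *
        (((g * m) ^ d) ^ m * (n ^ d) ^ (N - m)) < (n ^ d) ^ N := by
    refine sum_lt _ (by positivity) _ _ ?_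
    intro m hm
    rw [mem_Icc] at hm
    by_cases hmN : m ≤ N
    · exact key_ineq D C q N m hD hN hm.2 hmN hq
    · rw [Nat.choose_eq_zero_of_lt (by omega)]
      simp
  have hall : (univ : Finset (Fin N → Fin d → Fin n)).card = (n ^ d) ^ N := by
    simp
  rw [hall] at hcard
  exact absurd (hcard.trans hub) (not_le.2 hlt)

theorem exists_expander (D C : ℕ) (hD : 1 ≤ D) :
    ∃ d q0 : ℕ, ∀ q ≥ q0, ∀ N : ℕ, N ≤ C * q ^ (4 * D) →
      ∃ nb : Fin N → Finset (Fin (q ^ D)), (∀ v, (nb v).card ≤ d) ∧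
        Expands nb (C * q ^ (D - 1)) := by
  classical
  refine ⟨8 * D + 4, 2 * C * 3 ^ (4 * D + 3) * ((4 * D + 3) * C) ^ (4 * D + 1) +
    (4 * D + 3) * C + 1, ?_⟩
  intro q hq N hN
  obtain ⟨f, hf⟩ := exists_good D C q N hD hN (by omega) (by omega) (by omega)
  refine ⟨fun v => univ.image (f v), fun v => ?_, ?_⟩
  · exact card_image_le.trans (by simp)
  · intro X hX
    have h1 := hf X hX
    set nb : Fin N → Finset (Fin (q ^ D)) := fun v => univ.image (f v) with hnb
    set U := X.biUnion nb with hU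
    -- degree counting
    have h2 : ∑ j ∈ U, (X.filter fun v => j ∈ nb v).card = ∑ v ∈ X, (nb v).card := by
      have h3 : ∀ v ∈ X, (nb v).card = (U.filter fun j => j ∈ nb v).card := by
        intro v hv
        congr 1
        ext j
        rw [mem_filter]
        exact ⟨fun hj => ⟨mem_biUnion.2 ⟨v, hv, hj⟩, hj⟩, fun hj => hj.2⟩
      rw [sum_congr rfl h3]
      simp only [card_filter]
      exact sum_comm
    have h3 : ∑ v ∈ X, (nb v).card ≤ (8 * D + 4) * X.card := by
      refine (sum_le_card_nsmul X _ (8 * D + 4) fun v _ => ?_).trans ?_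
      · exact card_image_le.trans (by simp)
      · rw [smul_eq_mul, mul_comm]
    have h4 : 2 * U.card ≤ ∑ j ∈ U, (X.filter fun v => j ∈ nb v).card + (bdry nb X).card := by
      have h5 : ∑ j ∈ U, 2 ≤ ∑ j ∈ U, ((X.filter fun v => j ∈ nb v).card +
          if (X.filter fun v => j ∈ nb v).card = 1 then 1 else 0) := by
        refine sum_le_sum fun j hj => ?_
        have h6 : 1 ≤ (X.filter fun v => j ∈ nb v).card := by
          rw [hU, mem_biUnion] at hj
          obtain ⟨v, hv, hj⟩ := hj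
          exact card_pos.2 ⟨v, mem_filter.2 ⟨hv, hj⟩⟩
        split_ifs with h7 <;> omega
      rw [sum_add_distrib, ← card_filter] at h5
      have h6 : (U.filter fun j => (X.filter fun v => j ∈ nb v).card = 1).card ≤
          (bdry nb X).card := by
        refine card_le_card fun j hj => ?_
        rw [mem_filter] at hj
        exact mem_filter.2 ⟨mem_univ _, hj.2⟩
      rw [sum_const, smul_eq_mul] at h5
      omega
    rw [h2] at h4
    have h8 : (4 * D + 3) * X.card ≤ U.card := h1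
    nlinarith [h8, h3, h4]

end Pool.Agent.H56.TSp
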