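import Pool.Agent.H56.TSp.Lower
import Pool.Agent.H56.TSp.Expander

/-!
# The family of formulas
-/

set_option linter.unusedSectionVars false

namespace Pool.Agent.H56.TSp

open Finset

section

variable {ι J : Type*} [DecidableEq ι] [DecidableEq J] [Fintype ι] [Fintype J]

theorem expands_mono {nb : ι → Finset J} {l l' : ℕ} (h : l ≤ l') (hE : Expands nb l') :
    Expands nb l := fun X hX => hE X (hX.trans h)

theorem expands_equiv {ι' : Type*} [DecidableEq ι'] [Fintype ι'] (e : ι' ≃ ι)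
    {nb : ι → Finset J} {l : ℕ} (hE : Expands nb l) : Expands (fun v => nb (e v)) l := by
  intro X hX
  have h1 := hE (X.map e.toEmbedding) (by rw [card_map]; exact hX)
  rw [card_map] at h1
  refine h1.trans (le_of_eq ?_)
  congr 1
  unfold bdry
  refine filter_congr fun j _ => ?_
  rw [filter_map, card_map]
  rfl

/-- Refutable formulas are unsatisfiable. -/
theorem unsat_of_refutation {V : Type*} [DecidableEq V] {F : Finset (Clause V)} {m : ℕ}
    {D : ℕ → Clause V} (h : IsRefutation F m D) (y : V → Bool) :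
    ∃ E ∈ F, ∀ p ∈ E, y p.1 ≠ p.2 := by
  by_contra hcon
  push Not at hcon
  have key : ∀ i, i ≤ m → ∃ p ∈ D i, y p.1 = p.2 := by
    intro i
    induction i using Nat.strong_induction_on with
    | _ i ih =>
      intro hi
      rcases h.1 i hi with hF | ⟨j, hj, k, hk, x, hx1, hx2, hR⟩
      · exact hcon _ hF
      · obtain ⟨p, hp, hpy⟩ := ih j hj (by omega)
        obtain ⟨p', hp', hpy'⟩ := ih k hk (by omega)
        rw [hR]
        by_cases h1 : p = (x, true)
        · by_cases h2 : p' = (x, false)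
          · rw [h1] at hpy
            rw [h2] at hpy'
            simp only at hpy hpy'
            rw [hpy] at hpy'
            exact absurd hpy' (by decide)
          · exact ⟨p', mem_union_right _ (mem_erase.2 ⟨h2, hp'⟩), hpy'⟩
        · exact ⟨p, mem_union_left _ (mem_erase.2 ⟨h1, hp⟩), hpy⟩
  obtain ⟨p, hp, _⟩ := key m le_rfl
  rw [h.2] at hp
  simp at hp

end

theorem family (a : ℕ) (ha : 1 ≤ a) : ∃ k c q₁ : ℕ, ∀ q ≥ q₁,
    ∃ F : Finset (Clause (Fin (q ^ (3 * a + 1)))),
      (∀ D ∈ F, D.card ≤ k) ∧ F.card ≤ (q ^ (3 * a + 1)) ^ c ∧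
      (∃ m D, m + 1 ≤ (q ^ (3 * a + 1)) ^ c ∧ IsRefutation F m D) ∧
      ∀ t C, IsSpaceRefutation F t C → ∃ i ≤ t, q ^ (4 * a) ≤ totalSpace (C i) := by
  obtain ⟨d, q₀, hq₀⟩ := exists_expander (3 * a + 1) 196 (by omega)
  refine ⟨3 * d, 2 * (3 * d), q₀ + 3 * d + 3, ?_⟩
  intro q hq
  have hq3 : 3 ≤ q := by omega
  have hq1 : 1 ≤ q := by omega
  set T := q ^ (4 * a) with hT
  have hT1 : 1 ≤ T := Nat.one_le_pow _ _ hq1
  set s := 3 * T with hs
  have hN : Fintype.card (BV s (2 * s)) ≤ 196 * q ^ (4 * (3 * a + 1)) := by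
    have h1 : Fintype.card (BV s (2 * s)) = (s + 1) * ((2 * s + 1) * (2 * s + 1)) := by
      simp [BV]
    rw [h1]
    have h2 : s + 1 ≤ 4 * T := by omega
    have h3 : 2 * s + 1 ≤ 7 * T := by omega
    calc (s + 1) * ((2 * s + 1) * (2 * s + 1)) ≤ (4 * T) * ((7 * T) * (7 * T)) :=
          Nat.mul_le_mul h2 (Nat.mul_le_mul h3 h3)
      _ = 196 * T ^ 3 := by ring
      _ = 196 * q ^ (4 * a * 3) := by rw [hT, ← pow_mul]
      _ ≤ 196 * q ^ (4 * (3 * a + 1)) :=
          Nat.mul_le_mul_left _ (Nat.pow_le_pow_right hq1 (by omega))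
  obtain ⟨nb', hd', hE'⟩ := hq₀ q (by omega) _ hN
  let e : BV s (2 * s) ≃ Fin (Fintype.card (BV s (2 * s))) := Fintype.equivFin _
  let nb : BV s (2 * s) → Finset (Fin (q ^ (3 * a + 1))) := fun v => nb' (e v)
  have hd : ∀ v, (nb v).card ≤ d := fun v => hd' (e v)
  have hE : Expands nb (196 * q ^ (3 * a + 1 - 1)) := expands_equiv e hE'
  have hprem := bprem_card s (2 * s)
  obtain ⟨rk, hrk⟩ := bprem_rank s (2 * s)
  set F := liftedCNF nb (bprem s (2 * s)) (bsink s (2 * s)) with hF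
  have hw : ∀ D ∈ F, D.card ≤ 3 * d := lifted_width nb _ _ d hd hprem
  have hn3 : 3 ≤ q ^ (3 * a + 1) := by
    calc 3 ≤ q := hq3
      _ = q ^ 1 := (pow_one q).symm
      _ ≤ q ^ (3 * a + 1) := Nat.pow_le_pow_right hq1 (by omega)
  have hpow : (2 * Fintype.card (Fin (q ^ (3 * a + 1))) + 1) ^ (3 * d) ≤
      (q ^ (3 * a + 1)) ^ (2 * (3 * d)) := by
    rw [Fintype.card_fin]
    generalize q ^ (3 * a + 1) = n at hn3
    calc (2 * n + 1) ^ (3 * d) ≤ (n ^ 2) ^ (3 * d) := Nat.pow_le_pow_left (by nlinarith) _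
      _ = n ^ (2 * (3 * d)) := (pow_mul n 2 (3 * d)).symm
  refine ⟨F, hw, (card_le_of_width F (3 * d) hw).trans hpow, ?_, ?_⟩
  · obtain ⟨m, D, hm, hD⟩ := refutation_of_der F (3 * d) (lifted_der nb _ _ d hd hprem rk hrk)
    exact ⟨m, D, hm.trans hpow, hD⟩
  · intro t C hC
    have hMr : q ^ (3 * a) * q ^ a = T := by
      rw [hT, ← pow_add]
      congr 1
      ring
    have hr3 : (q ^ a) ^ 3 = q ^ (3 * a) := by
      rw [← pow_mul]
      congr 1
      ring
    have := lower_lifted (M := q ^ (3 * a)) (r := q ^ a) (s := s) (L := s) (q := 2 * s) hE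
      (by
        rw [hr3]
        have h1 : 3 * a + 1 - 1 = 3 * a := by omega
        rw [h1]
        have h2 : 1 ≤ q ^ (3 * a) := Nat.one_le_pow _ _ hq1
        omega)
      (Nat.one_le_pow _ _ hq1)
      (by
        intro b
        refine (axU_card nb _ _ d hd hprem b).trans ?_
        calc 3 * d ≤ q := by omega
          _ = q ^ 1 := (pow_one q).symm
          _ ≤ q ^ (3 * a) := Nat.pow_le_pow_right hq1 (by omega))
      (by
        rw [hr3]
        have h1 : q ^ a * (q ^ (3 * a) + q ^ (3 * a)) = 2 * T := by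
          rw [← hMr]
          ring
        rw [h1, hMr]
        omega)
      le_rfl le_rfl t C hC
    rwa [hMr] at this

end Pool.Agent.H56.TSp
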