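import Pool.Agent.H56.TSp.LinB

/-!
# The invariant of the lower bound

For a configuration `C` and a world `x` the invariant `Inv C x` says that every small clause of
`C` is true on all assignments which are locally consistent with `x`, and that the big clauses
can be satisfied simultaneously by a consistent assignment in any affine subspace of small
codimension.
-/

set_option linter.unusedSectionVars false

namespace Pool.Agent.H56.TSp

open Finset

variable {ι J : Type*} [DecidableEq ι] [DecidableEq J] [Fintype ι] [Fintype J]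

section Basic

variable {nb : ι → Finset J} {l : ℕ}

theorem lamMono {S S' : Finset J} (h : S ⊆ S') : Lam nb l S ⊆ Lam nb l S' :=
  fun _ hc => ⟨hc.1, fun j hj => hc.2 j (fun hjS => hj (h hjS))⟩

theorem Con_anti {x : ι → ZMod 2} {S S' : Finset J} (h : S ⊆ S') :
    Con nb l x S' ⊆ Con nb l x S :=
  fun _ hy c hc => hy c (lamMono h hc)

theorem ksAnti {S S' : Finset J} (h : S ⊆ S') : KS nb l S' ≤ KS nb l S :=
  fun _ hy c hc => hy c (lamMono h hc)

theorem mem_KS_iff {S : Finset J} {y : J → ZMod 2} :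
    y ∈ KS nb l S ↔ ∀ c ∈ Lam nb l S, ∑ v, c v * par nb y v = 0 := Iff.rfl

theorem mem_ZS_iff {S : Finset J} {y : J → ZMod 2} : y ∈ ZS S ↔ ∀ j ∈ S, y j = 0 := Iff.rfl

theorem par_add (y y' : J → ZMod 2) (v : ι) : par nb (y + y') v = par nb y v + par nb y' v := by
  simp [par, sum_add_distrib]

theorem par_sub (y y' : J → ZMod 2) (v : ι) : par nb (y - y') v = par nb y v - par nb y' v := by
  simp [par, sum_sub_distrib]

theorem Con_add {x : ι → ZMod 2} {S : Finset J} {y k : J → ZMod 2} (hy : y ∈ Con nb l x S)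
    (hk : k ∈ KS nb l S) : y + k ∈ Con nb l x S := by
  intro c hc
  have h1 := hy c hc
  have h2 := hk c hc
  simp only [par_add, mul_add, sum_add_distrib, h1, h2, add_zero]

theorem Con_local {x : ι → ZMod 2} {S : Finset J} {y y' : J → ZMod 2}
    (h : ∀ j ∈ S, y' j = y j) (hy : y ∈ Con nb l x S) : y' ∈ Con nb l x S := by
  have hk : y' - y ∈ KS nb l S := by
    apply ZS_le_KS
    intro j hj
    simp [h j hj]
  have := Con_add hy hk
  simpa using this

theorem KS_ext (hE : Expands nb l) {S S' : Finset J} (hSS : S ⊆ S') (hS' : S'.card ≤ l)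
    {y : J → ZMod 2} (hy : y ∈ KS nb l S) : ∃ y' ∈ KS nb l S', ∀ j ∈ S, y' j = y j := by
  have h0 : y ∈ Con nb l (0 : ι → ZMod 2) S := by
    intro c hc
    simpa using hy c hc
  obtain ⟨y', hy', h⟩ := Con_ext nb l hE 0 S S' hSS hS' y h0
  refine ⟨y', ?_, h⟩
  intro c hc
  simpa using hy' c hc

theorem Con_congr {x x' : ι → ZMod 2} {S : Finset J} (h : ∀ v ∈ Vs nb l S, x v = x' v)
    {y : J → ZMod 2} (hy : y ∈ Con nb l x S) : y ∈ Con nb l x' S := by
  intro c hc
  rw [hy c hc]
  refine sum_congr rfl fun v _ => ?_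
  by_cases hv : c v = 0
  · simp [hv]
  · rw [h v]
    simp only [Vs, mem_filter, mem_univ, true_and]
    exact ⟨c, hc, hv⟩

theorem Con_empty (hE : Expands nb l) (x : ι → ZMod 2) (y : J → ZMod 2) :
    y ∈ Con nb l x ∅ := by
  intro c hc
  have h0 : (Vs nb l (∅ : Finset J)) = ∅ := by
    have := Vs_card nb l hE ∅ (by simp)
    rw [← card_eq_zero]
    simp at this
    simpa using this
  have hc0 : ∀ v, c v = 0 := by
    intro v
    by_contra hv
    have : v ∈ Vs nb l (∅ : Finset J) := by
      simp only [Vs, mem_filter, mem_univ, true_and]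
      exact ⟨c, hc, hv⟩
    rw [h0] at this
    simp at this
  simp [hc0]

/-- Consistency on `S` gives the right parity for every `v` with `nb v ⊆ S`. -/
theorem par_eq_of_Con (hl : 1 ≤ l) {x : ι → ZMod 2} {S : Finset J} {y : J → ZMod 2}
    (hy : y ∈ Con nb l x S) {v : ι} (hv : nb v ⊆ S) : par nb y v = x v := by
  have hc : (Pi.single v 1 : ι → ZMod 2) ∈ Lam nb l S := by
    constructor
    · refine le_trans (card_le_card (t := {v}) ?_) (by simpa using hl)
      intro w hw
      simp only [csupp, mem_filter, mem_univ, true_and] at hw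
      simp only [mem_singleton]
      by_contra hne
      exact hw (Pi.single_eq_of_ne hne 1)
    · intro j hj
      unfold row
      refine sum_eq_zero fun w _ => ?_
      by_cases hw : w = v
      · subst hw
        rw [if_neg (fun h => hj (hv h))]
      · split_ifs
        · exact Pi.single_eq_of_ne hw 1
        · rfl
  have := hy _ hc
  simpa [Pi.single_apply] using this

theorem mem_Vs_of_nb (hl : 1 ≤ l) {S : Finset J} {v : ι} (hv : nb v ⊆ S) : v ∈ Vs nb l S := by
  simp only [Vs, mem_filter, mem_univ, true_and]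
  refine ⟨Pi.single v 1, ⟨?_, ?_⟩, by simp⟩
  · refine le_trans (card_le_card (t := {v}) ?_) (by simpa using hl)
    intro w hw
    simp only [csupp, mem_filter, mem_univ, true_and] at hw
    simp only [mem_singleton]
    by_contra hne
    exact hw (Pi.single_eq_of_ne hne 1)
  · intro j hj
    unfold row
    refine sum_eq_zero fun w _ => ?_
    by_cases hw : w = v
    · subst hw
      rw [if_neg (fun h => hj (hv h))]
    · split_ifs
      · exact Pi.single_eq_of_ne hw 1
      · rfl

end Basic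

/-! ### Clauses -/

/-- The variables of a clause. -/
def cvars (D : Clause J) : Finset J := D.image Prod.fst

/-- The literal `p` is true under `y`. -/
def LitTrue (y : J → ZMod 2) (p : J × Bool) : Prop := y p.1 = if p.2 then 1 else 0

/-- `y` satisfies the clause `D`. -/
def SatC (y : J → ZMod 2) (D : Clause J) : Prop := ∃ p ∈ D, LitTrue y p

/-- `y` satisfies the clause `D` by a literal with variable in `S`. -/
def SatIn (y : J → ZMod 2) (D : Clause J) (S : Finset J) : Prop :=
  ∃ p ∈ D, p.1 ∈ S ∧ LitTrue y p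

/-- Clauses of small rank. -/
def Small (nb : ι → Finset J) (l M : ℕ) (D : Clause J) : Prop :=
  (cvars D).card ≤ 2 * M ∧ rho nb l (cvars D) ≤ M

open Classical in
/-- The big clauses of a configuration. -/
noncomputable def Bigs (nb : ι → Finset J) (l M : ℕ) (C : Finset (Clause J)) :
    Finset (Clause J) := C.filter fun W => ¬ Small nb l M W

/-- The invariant. -/
structure Inv (nb : ι → Finset J) (l M r : ℕ) (C : Finset (Clause J)) (x : ι → ZMod 2) :
    Prop where
  small : ∀ D ∈ C, Small nb l M D → ∀ y ∈ Con nb l x (cvars D), SatC y D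
  big : ∀ S : Finset J, S.card ≤ 2 * (M + r ^ 2) →
    ∀ L : Submodule (ZMod 2) (J → ZMod 2), ZS S ≤ L → L ≤ KS nb l S →
      Module.finrank (ZMod 2) (KS nb l S) ≤ Module.finrank (ZMod 2) L + M →
      ∀ y₀ ∈ Con nb l x S, ∃ S' : Finset J, S ⊆ S' ∧ S'.card ≤ S.card + r ∧
        ∃ y ∈ Con nb l x S', y - y₀ ∈ L ∧ ∀ W ∈ Bigs nb l M C, SatIn y W S'

section Steps

variable {nb : ι → Finset J} {l M r : ℕ}

theorem mem_Bigs {C : Finset (Clause J)} {W : Clause J} :
    W ∈ Bigs nb l M C ↔ W ∈ C ∧ ¬ Small nb l M W := by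
  simp [Bigs]

theorem mem_cvars {D : Clause J} {j : J} : j ∈ cvars D ↔ ∃ b, (j, b) ∈ D := by
  simp only [cvars, mem_image, Prod.exists]
  constructor
  · rintro ⟨a, b, h, rfl⟩
    exact ⟨b, h⟩
  · rintro ⟨b, h⟩
    exact ⟨j, b, h, rfl⟩

theorem fst_mem_cvars {D : Clause J} {p : J × Bool} (h : p ∈ D) : p.1 ∈ cvars D :=
  mem_image_of_mem _ h

theorem inv_empty (x : ι → ZMod 2) : Inv nb l M r ∅ x := by
  refine ⟨by simp, ?_⟩
  intro S hS L hZ _ _ y₀ hy₀
  refine ⟨S, Subset.refl _, Nat.le_add_right _ _, y₀, hy₀, by simp, ?_⟩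
  intro W hW
  rw [mem_Bigs] at hW
  simp at hW

theorem not_inv_of_bot (hE : Expands nb l) {C : Finset (Clause J)} (hC : ∅ ∈ C)
    (x : ι → ZMod 2) : ¬ Inv nb l M r C x := by
  intro h
  have hs : Small nb l M (∅ : Clause J) := by
    have hv : cvars (∅ : Clause J) = ∅ := by simp [cvars]
    constructor
    · simp [hv]
    · refine le_trans (rho_le_card nb l _) ?_
      simp [hv]
  have hv : cvars (∅ : Clause J) = ∅ := by simp [cvars]
  obtain ⟨p, hp, _⟩ := h.small ∅ hC hs 0 (by rw [hv]; exact Con_empty hE x 0)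
  simp at hp

theorem inv_del {C C' : Finset (Clause J)} (hC : C' ⊆ C) {x : ι → ZMod 2}
    (h : Inv nb l M r C x) : Inv nb l M r C' x := by
  refine ⟨fun D hD => h.small D (hC hD), ?_⟩
  intro S hS L hZ hK hf y₀ hy₀
  obtain ⟨S', h1, h2, y, hy, hyL, hW⟩ := h.big S hS L hZ hK hf y₀ hy₀
  refine ⟨S', h1, h2, y, hy, hyL, ?_⟩
  intro W hW'
  rw [mem_Bigs] at hW'
  exact hW W (mem_Bigs.2 ⟨hC hW'.1, hW'.2⟩)

/-- Adding a small clause which is true on all consistent assignments. -/
theorem inv_insert_small {C : Finset (Clause J)} {D : Clause J} {x : ι → ZMod 2}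
    (h : Inv nb l M r C x) (hD : Small nb l M D)
    (hs : ∀ y ∈ Con nb l x (cvars D), SatC y D) : Inv nb l M r (insert D C) x := by
  constructor
  · intro D' hD' hs'
    rcases mem_insert.1 hD' with rfl | hD''
    · exact hs
    · exact h.small D' hD'' hs'
  · intro S hS L hZ hK hf y₀ hy₀
    obtain ⟨S', h1, h2, y, hy, hyL, hW⟩ := h.big S hS L hZ hK hf y₀ hy₀
    refine ⟨S', h1, h2, y, hy, hyL, ?_⟩
    intro W hW'
    rw [mem_Bigs, mem_insert] at hW'
    rcases hW'.1 with rfl | hWC
    · exact absurd hD hW'.2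
    · exact hW W (mem_Bigs.2 ⟨hWC, hW'.2⟩)

theorem cvars_fullClause (S : Finset J) (y : J → ZMod 2) : cvars (fullClause S y) = S := by
  ext j
  rw [mem_cvars]
  simp only [fullClause, mem_image, Prod.mk.injEq]
  constructor
  · rintro ⟨b, i, hi, rfl, _⟩
    exact hi
  · intro hj
    exact ⟨decide (y j = 0), j, hj, rfl, rfl⟩

theorem zmod2_cases (a : ZMod 2) : a = 0 ∨ a = 1 := by
  revert a; decide

theorem eq_of_not_sat_fullClause {S : Finset J} {y y₀ : J → ZMod 2}
    (h : ¬ SatC y (fullClause S y₀)) : ∀ j ∈ S, y j = y₀ j := by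
  intro j hj
  by_contra hne
  apply h
  refine ⟨(j, decide (y₀ j = 0)), ?_, ?_⟩
  · exact mem_image_of_mem (fun j => (j, decide (y₀ j = 0))) hj
  · unfold LitTrue
    rcases zmod2_cases (y j) with h1 | h1 <;> rcases zmod2_cases (y₀ j) with h2 | h2 <;>
      simp_all

/-- Downloading a lifted axiom. -/
theorem inv_ax (hl : 1 ≤ l) (prem : ι → Finset ι) (z : ι) {C : Finset (Clause J)}
    {x : ι → ZMod 2} (h : Inv nb l M r C x) (a : Option ι) (hx : SatAx prem z x a)
    (hcard : ((axVars prem z a).biUnion nb).card ≤ M) (y₀ : J → ZMod 2)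
    (hy₀ : ¬ SatAx prem z (par nb y₀) a) :
    Inv nb l M r (insert (fullClause ((axVars prem z a).biUnion nb) y₀) C) x := by
  apply inv_insert_small h
  · refine ⟨?_, ?_⟩
    · rw [cvars_fullClause]; omega
    · refine le_trans (rho_le_card nb l _) ?_
      rw [cvars_fullClause]; exact hcard
  · intro y hy
    rw [cvars_fullClause] at hy
    by_contra hsat
    have heq := eq_of_not_sat_fullClause hsat
    have hpar : ∀ v ∈ axVars prem z a, par nb y₀ v = x v := by
      intro v hv
      have hsub : nb v ⊆ (axVars prem z a).biUnion nb := subset_biUnion_of_mem nb hv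
      rw [← par_eq_of_Con hl hy hsub]
      unfold par
      exact sum_congr rfl fun j hj => (heq j (hsub hj)).symm
    apply hy₀
    cases a with
    | none =>
      simp only [SatAx] at hx ⊢
      rw [hpar z (by simp [axVars])]
      exact hx
    | some v =>
      simp only [SatAx] at hx ⊢
      intro hu
      rw [hpar v (by simp [axVars])]
      apply hx
      intro u hu'
      rw [← hpar u (by simp [axVars, hu'])]
      exact hu u hu'

/-- Keep only one variable per big clause. -/
theorem restrict_sat {C : Finset (Clause J)} (hr : (Bigs nb l M C).card ≤ r) {S S'' : Finset J}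
    (hS : S ⊆ S'') {y : J → ZMod 2} (h : ∀ W ∈ Bigs nb l M C, SatIn y W S'') :
    ∃ S', S ⊆ S' ∧ S' ⊆ S'' ∧ S'.card ≤ S.card + r ∧ ∀ W ∈ Bigs nb l M C, SatIn y W S' := by
  choose f hf using h
  refine ⟨S ∪ (Bigs nb l M C).attach.image (fun W => (f W.1 W.2).1), subset_union_left, ?_, ?_, ?_⟩
  · apply union_subset hS
    intro j hj
    rw [mem_image] at hj
    obtain ⟨W, _, rfl⟩ := hj
    exact (hf W.1 W.2).2.1
  · refine le_trans (card_union_le _ _) ?_
    have := card_image_le (s := (Bigs nb l M C).attach) (f := fun W => (f W.1 W.2).1)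
    rw [card_attach] at this
    omega
  · intro W hW
    refine ⟨f W hW, (hf W hW).1, ?_, (hf W hW).2.2⟩
    apply mem_union_right
    exact mem_image_of_mem (fun W : {W // W ∈ Bigs nb l M C} => (f W.1 W.2).1)
      (mem_attach _ ⟨W, hW⟩)

/-- A literal that is false is avoided by a satisfied clause. -/
theorem satC_of_sub {A R : Clause J} {z : J} {b : Bool} (hA : A ⊆ insert (z, b) R)
    {y : J → ZMod 2} (hz : ¬ LitTrue y (z, b)) (h : SatC y A) : SatC y R := by
  obtain ⟨p, hp, ht⟩ := h
  rcases mem_insert.1 (hA hp) with rfl | hpR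
  · exact absurd ht hz
  · exact ⟨p, hpR, ht⟩

theorem satIn_of_sub {A R : Clause J} {z : J} {b : Bool} (hA : A ⊆ insert (z, b) R)
    {y : J → ZMod 2} (hz : ¬ LitTrue y (z, b)) {S : Finset J} (h : SatIn y A S) :
    SatIn y R S := by
  obtain ⟨p, hp, hpS, ht⟩ := h
  rcases mem_insert.1 (hA hp) with rfl | hpR
  · exact absurd ht hz
  · exact ⟨p, hpR, hpS, ht⟩

theorem SatIn.satC {y : J → ZMod 2} {D : Clause J} {S : Finset J} (h : SatIn y D S) :
    SatC y D := by
  obtain ⟨p, hp, _, ht⟩ := h
  exact ⟨p, hp, ht⟩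

theorem SatC.satIn {y : J → ZMod 2} {D : Clause J} {S : Finset J} (h : SatC y D)
    (hS : cvars D ⊆ S) : SatIn y D S := by
  obtain ⟨p, hp, ht⟩ := h
  exact ⟨p, hp, hS (fst_mem_cvars hp), ht⟩

theorem lit_cases (y : J → ZMod 2) (z : J) : ¬ LitTrue y (z, true) ∨ ¬ LitTrue y (z, false) := by
  unfold LitTrue
  rcases zmod2_cases (y z) with h | h <;> simp [h]

theorem cvars_sub_of_sub {A R : Clause J} {z : J} {b : Bool} (hA : A ⊆ insert (z, b) R) :
    cvars A ⊆ insert z (cvars R) := by
  intro j hj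
  rw [mem_cvars] at hj
  obtain ⟨b', hb'⟩ := hj
  rcases mem_insert.1 (hA hb') with h | h
  · rw [Prod.mk.injEq] at h
    rw [h.1]
    exact mem_insert_self _ _
  · exact mem_insert_of_mem (fst_mem_cvars h)

/-- Inference of a small clause. -/
theorem inv_res_small (hE : Expands nb l) (hl : 2 * M + 1 ≤ l) {C : Finset (Clause J)}
    (hM' : 2 * M + 1 ≤ 2 * (M + r ^ 2))
    {x : ι → ZMod 2} (h : Inv nb l M r C x) {A B R : Clause J} (hAC : A ∈ C) (hBC : B ∈ C)
    {z : J} (hA : A ⊆ insert (z, true) R) (hB : B ⊆ insert (z, false) R)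
    (hR : Small nb l M R) : Inv nb l M r (insert R C) x := by
  apply inv_insert_small h hR
  intro y hy
  by_contra hsat
  set S₀ := cvars R with hS₀
  set S := insert z S₀ with hS
  have hS₀S : S₀ ⊆ S := subset_insert _ _
  have hScard : S.card ≤ 2 * M + 1 := by
    refine le_trans (card_insert_le _ _) ?_
    have h5 : S₀.card ≤ 2 * M := hR.1
    omega
  obtain ⟨y₀, hy₀, hy₀'⟩ := Con_ext nb l hE x S₀ S hS₀S (by omega) y hy
  have hZK := ZS_le_KS nb l S
  obtain ⟨S', hSS', hS'c, y₁, hy₁, hyL, hbig⟩ := h.big S (by omega)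
    (KS nb l S ⊓ ZS S₀) (le_inf hZK (fun k hk j hj => hk j (hS₀S hj))) inf_le_left (by
      have h1 := KS_eq_sup nb l hE S₀ S hS₀S (by omega)
      have h2 := Submodule.finrank_sup_add_finrank_inf_eq (KS nb l S) (ZS S₀)
      rw [← h1] at h2
      have h3 := rho_spec nb l S₀
      have h4 : rho nb l S₀ ≤ M := hR.2
      omega) y₀ hy₀
  have hyR : ∀ j ∈ S₀, y₁ j = y j := by
    intro j hj
    have := hyL.2 j hj
    rw [Pi.sub_apply, sub_eq_zero] at this
    rw [this, hy₀' j hj]
  have hnR : ¬ SatC y₁ R := by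
    rintro ⟨p, hp, ht⟩
    apply hsat
    refine ⟨p, hp, ?_⟩
    unfold LitTrue at ht ⊢
    rw [← hyR p.1 (fst_mem_cvars hp)]
    exact ht
  have key : ∀ A ∈ C, cvars A ⊆ S → SatC y₁ A := by
    intro A hAC hAS
    by_cases hs : Small nb l M A
    · exact h.small A hAC hs y₁ (Con_anti (hAS.trans hSS') hy₁)
    · exact (hbig A (mem_Bigs.2 ⟨hAC, hs⟩)).satC
  rcases lit_cases y₁ z with hz | hz
  · exact hnR (satC_of_sub hA hz (key A hAC (cvars_sub_of_sub hA)))
  · exact hnR (satC_of_sub hB hz (key B hBC (cvars_sub_of_sub hB)))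

/-- Inference of a big clause. -/
theorem inv_res_big (hE : Expands nb l) (hl : 2 * (M + r ^ 2) + r + 4 * M ≤ l)
    {C : Finset (Clause J)}
    {x : ι → ZMod 2} (h : Inv nb l M r C x) {A B R : Clause J} (hAC : A ∈ C) (hBC : B ∈ C)
    {z : J} (hA : A ⊆ insert (z, true) R) (hB : B ⊆ insert (z, false) R)
    (hR : ¬ Small nb l M R) (hr : (Bigs nb l M (insert R C)).card ≤ r) :
    Inv nb l M r (insert R C) x := by
  constructor
  · intro D hD hs
    rcases mem_insert.1 hD with rfl | hD'
    · exact absurd hs hR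
    · exact h.small D hD' hs
  · intro S hS L hZ hK hf y₀ hy₀
    obtain ⟨S', hSS', hS'c, y₁, hy₁, hyL, hbig⟩ := h.big S hS L hZ hK hf y₀ hy₀
    classical
    let X : Clause J → Finset J := fun A => if Small nb l M A then cvars A else ∅
    have hX : ∀ A, (X A).card ≤ 2 * M := by
      intro A
      simp only [X]
      split_ifs with hs
      · exact hs.1
      · simp
    set S'' := S' ∪ X A ∪ X B with hS''
    have hS'S'' : S' ⊆ S'' := subset_union_left.trans subset_union_left
    have hS''c : S''.card ≤ l := by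
      have h1 := card_union_le (S' ∪ X A) (X B)
      have h2 := card_union_le S' (X A)
      have h3 := hX A
      have h4 := hX B
      rw [hS'']
      omega
    obtain ⟨y₂, hy₂, hy₂'⟩ := Con_ext nb l hE x S' S'' hS'S'' hS''c y₁ hy₁
    have hSS'' : S ⊆ S'' := hSS'.trans hS'S''
    have hdiff : y₂ - y₁ ∈ L := by
      apply hZ
      intro j hj
      rw [Pi.sub_apply, hy₂' j (hSS' hj), sub_self]
    have hbig₂ : ∀ W ∈ Bigs nb l M C, SatIn y₂ W S'' := by
      intro W hW
      obtain ⟨p, hp, hpS, ht⟩ := hbig W hW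
      refine ⟨p, hp, hS'S'' hpS, ?_⟩
      unfold LitTrue at ht ⊢
      rw [hy₂' p.1 hpS]
      exact ht
    have key : ∀ A ∈ C, X A ⊆ S'' → SatIn y₂ A S'' := by
      intro A hAC hAS
      by_cases hs : Small nb l M A
      · have hXA : X A = cvars A := by simp [X, hs]
        rw [hXA] at hAS
        exact (h.small A hAC hs y₂ (Con_anti hAS hy₂)).satIn hAS
      · exact hbig₂ A (mem_Bigs.2 ⟨hAC, hs⟩)
    have hRsat : SatIn y₂ R S'' := by
      rcases lit_cases y₂ z with hz | hz
      · exact satIn_of_sub hA hz (key A hAC (subset_union_right.trans subset_union_left))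
      · exact satIn_of_sub hB hz (key B hBC subset_union_right)
    have hall : ∀ W ∈ Bigs nb l M (insert R C), SatIn y₂ W S'' := by
      intro W hW
      rw [mem_Bigs, mem_insert] at hW
      rcases hW.1 with rfl | hWC
      · exact hRsat
      · exact hbig₂ W (mem_Bigs.2 ⟨hWC, hW.2⟩)
    obtain ⟨S₃, h1, h2, h3, h4⟩ := restrict_sat hr hSS'' hall
    refine ⟨S₃, h1, h3, y₂, Con_anti h2 hy₂, ?_, h4⟩
    have : y₂ - y₀ = (y₂ - y₁) + (y₁ - y₀) := by abel
    rw [this]
    exact L.add_mem hdiff hyL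

end Steps

end Pool.Agent.H56.TSp
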