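import Pool.Agent.H56.TSp.LinDefs

/-!
# Local consistency: the extension property
-/

namespace Pool.Agent.H56.TSp

open Finset

set_option linter.unusedSectionVars false

section LinA

variable {ι J : Type*} [DecidableEq ι] [DecidableEq J] [Fintype ι] [Fintype J]

theorem sum_row (nb : ι → Finset J) (c : ι → ZMod 2) (y : J → ZMod 2) :
    ∑ v, c v * par nb y v = ∑ j, row nb c j * y j := by
  simp only [par, row, sum_mul, mul_sum]
  rw [Finset.sum_comm]
  refine Finset.sum_congr rfl fun v _ => ?_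
  rw [← Finset.sum_subset (Finset.subset_univ (nb v))]
  · refine Finset.sum_congr rfl fun j hj => ?_
    rw [if_pos hj]
  · intro j _ hj
    rw [if_neg hj, zero_mul]

theorem row_add (nb : ι → Finset J) (c₁ c₂ : ι → ZMod 2) (j : J) :
    row nb (c₁ + c₂) j = row nb c₁ j + row nb c₂ j := by
  simp only [row, Pi.add_apply, ← sum_add_distrib]
  refine sum_congr rfl fun v _ => ?_
  split_ifs <;> simp

theorem row_smul (nb : ι → Finset J) (t : ZMod 2) (c : ι → ZMod 2) (j : J) :
    row nb (t • c) j = t * row nb c j := by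
  simp only [row, Pi.smul_apply, smul_eq_mul, mul_sum]
  refine sum_congr rfl fun v _ => ?_
  split_ifs <;> simp

theorem row_zero (nb : ι → Finset J) (j : J) : row nb (0 : ι → ZMod 2) j = 0 := by
  simp [row]

theorem mem_csupp {c : ι → ZMod 2} {v : ι} : v ∈ csupp c ↔ c v ≠ 0 := by
  simp [csupp]

/-- The boundary of a union of supports of elements of `Lam S` is contained in `S`. -/
theorem bdry_subset (nb : ι → Finset J) (l : ℕ) (S : Finset J) (CC : Finset (ι → ZMod 2))
    (hCC : ∀ c ∈ CC, c ∈ Lam nb l S) : bdry nb (CC.biUnion csupp) ⊆ S := by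
  intro j hj
  simp only [bdry, mem_filter, mem_univ, true_and] at hj
  obtain ⟨v, hv⟩ := card_eq_one.1 hj
  have h1 : v ∈ (CC.biUnion csupp).filter fun v => j ∈ nb v := by
    rw [hv]
    exact mem_singleton_self v
  rw [mem_filter, mem_biUnion] at h1
  obtain ⟨⟨c, hc, hcv⟩, hjv⟩ := h1
  by_contra hjS
  have h2 := (hCC c hc).2 j hjS
  rw [row, Finset.sum_eq_single v] at h2
  · rw [if_pos hjv] at h2
    exact mem_csupp.1 hcv h2
  · intro w _ hwv
    split_ifs with hjw
    · by_contra hcw
      have h3 : w ∈ (CC.biUnion csupp).filter fun v => j ∈ nb v := by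
        rw [mem_filter, mem_biUnion]
        exact ⟨⟨c, hc, mem_csupp.2 hcw⟩, hjw⟩
      rw [hv, mem_singleton] at h3
      exact hwv h3
    · rfl
  · intro h
    exact absurd (mem_univ v) h

theorem csupp_card (nb : ι → Finset J) (l : ℕ) (hE : Expands nb l) (S : Finset J)
    (c : ι → ZMod 2) (hc : c ∈ Lam nb l S) : 2 * (csupp c).card ≤ S.card := by
  have h1 := bdry_subset nb l S {c} (by simpa using hc)
  rw [singleton_biUnion] at h1
  exact (hE _ hc.1).trans (card_le_card h1)

theorem biUnion_card (nb : ι → Finset J) (l : ℕ) (hE : Expands nb l) (S : Finset J)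
    (hS : S.card ≤ l) (CC : Finset (ι → ZMod 2)) (hCC : ∀ c ∈ CC, c ∈ Lam nb l S) :
    2 * (CC.biUnion csupp).card ≤ S.card := by
  classical
  induction CC using Finset.induction_on with
  | empty => simp
  | insert c CC hc ih =>
    have h1 := ih (fun c hc => hCC c (mem_insert_of_mem hc))
    have h2 := csupp_card nb l hE S c (hCC c (mem_insert_self _ _))
    have h3 : ((insert c CC).biUnion csupp).card ≤ l := by
      rw [biUnion_insert]
      have := card_union_le (csupp c) (CC.biUnion csupp)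
      omega
    exact (hE _ h3).trans (card_le_card (bdry_subset nb l S _ hCC))

theorem Vs_eq (nb : ι → Finset J) (l : ℕ) (S : Finset J) :
    ∃ CC : Finset (ι → ZMod 2), (∀ c ∈ CC, c ∈ Lam nb l S) ∧ Vs nb l S = CC.biUnion csupp := by
  classical
  refine ⟨univ.filter fun c => c ∈ Lam nb l S, fun c hc => (mem_filter.1 hc).2, ?_⟩
  ext v
  simp only [Vs, mem_filter, mem_univ, true_and, mem_biUnion, mem_csupp]

/-- The union of the supports of the elements of `Lam S` is small. -/
theorem Vs_card (nb : ι → Finset J) (l : ℕ) (hE : Expands nb l) (S : Finset J)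
    (hS : S.card ≤ l) : 2 * (Vs nb l S).card ≤ S.card := by
  obtain ⟨CC, h1, h2⟩ := Vs_eq nb l S
  rw [h2]
  exact biUnion_card nb l hE S hS CC h1

theorem Lam_add (nb : ι → Finset J) (l : ℕ) (hE : Expands nb l) (S : Finset J)
    (hS : S.card ≤ l) (c₁ c₂ : ι → ZMod 2) (h₁ : c₁ ∈ Lam nb l S) (h₂ : c₂ ∈ Lam nb l S) :
    c₁ + c₂ ∈ Lam nb l S := by
  refine ⟨?_, ?_⟩
  · have h3 : csupp (c₁ + c₂) ⊆ csupp c₁ ∪ csupp c₂ := by
      intro v hv
      rw [mem_union, mem_csupp, mem_csupp]
      rw [mem_csupp] at hv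
      by_contra h
      push Not at h
      exact hv (by rw [Pi.add_apply, h.1, h.2, add_zero])
    have h4 := card_le_card h3
    have h5 := card_union_le (csupp c₁) (csupp c₂)
    have h6 := csupp_card nb l hE S c₁ h₁
    have h7 := csupp_card nb l hE S c₂ h₂
    omega
  · intro j hj
    rw [row_add, h₁.2 j hj, h₂.2 j hj, add_zero]

theorem Lam_zero (nb : ι → Finset J) (l : ℕ) (S : Finset J) :
    (0 : ι → ZMod 2) ∈ Lam nb l S := by
  refine ⟨?_, fun j _ => row_zero nb j⟩
  have : csupp (0 : ι → ZMod 2) = ∅ := by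
    ext v
    simp [csupp]
  rw [this]
  simp

theorem Lam_smul (nb : ι → Finset J) (l : ℕ) (S : Finset J) (t : ZMod 2) (c : ι → ZMod 2)
    (hc : c ∈ Lam nb l S) : t • c ∈ Lam nb l S := by
  refine ⟨?_, ?_⟩
  · refine (card_le_card ?_).trans hc.1
    intro v hv
    rw [mem_csupp] at hv ⊢
    intro h
    exact hv (by rw [Pi.smul_apply, h, smul_zero])
  · intro j hj
    rw [row_smul, hc.2 j hj, mul_zero]

theorem Lam_mono (nb : ι → Finset J) (l : ℕ) {S S' : Finset J} (hSS : S ⊆ S') :
    Lam nb l S ⊆ Lam nb l S' :=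
  fun _ hc => ⟨hc.1, fun j hj => hc.2 j fun h => hj (hSS h)⟩

/-- Extension property. -/
theorem Con_ext (nb : ι → Finset J) (l : ℕ) (hE : Expands nb l) (x : ι → ZMod 2)
    (S S' : Finset J) (hSS : S ⊆ S') (hS' : S'.card ≤ l) (y : J → ZMod 2)
    (hy : y ∈ Con nb l x S) : ∃ y' ∈ Con nb l x S', ∀ j ∈ S, y' j = y j := by
  let P : Submodule (ZMod 2) ((ι → ZMod 2) × (J → ZMod 2)) :=
    { carrier := {p | p.1 ∈ Lam nb l S' ∧ ∀ j, j ∉ S → p.2 j = 0}
      add_mem' := by
        rintro p p' ⟨h1, h2⟩ ⟨h3, h4⟩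
        refine ⟨Lam_add nb l hE S' hS' _ _ h1 h3, fun j hj => ?_⟩
        rw [Prod.snd_add, Pi.add_apply, h2 j hj, h4 j hj, add_zero]
      zero_mem' := ⟨Lam_zero nb l S', fun j _ => rfl⟩
      smul_mem' := by
        rintro t p ⟨h1, h2⟩
        refine ⟨Lam_smul nb l S' t _ h1, fun j hj => ?_⟩
        rw [Prod.smul_snd, Pi.smul_apply, h2 j hj, smul_zero] }
  let f : P →ₗ[ZMod 2] (J → ZMod 2) :=
    { toFun := fun p j => row nb p.1.1 j + p.1.2 j
      map_add' := by
        intro p p'
        funext j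
        simp only [Submodule.coe_add, Prod.fst_add, Prod.snd_add, row_add, Pi.add_apply]
        ring
      map_smul' := by
        intro t p
        funext j
        simp only [Submodule.coe_smul, Prod.smul_fst, Prod.smul_snd, row_smul, Pi.smul_apply,
          smul_eq_mul, RingHom.id_apply]
        ring }
  let g : P →ₗ[ZMod 2] ZMod 2 :=
    { toFun := fun p => ∑ v, p.1.1 v * x v + ∑ j, p.1.2 j * y j
      map_add' := by
        intro p p'
        simp only [Submodule.coe_add, Prod.fst_add, Prod.snd_add, Pi.add_apply, add_mul,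
          sum_add_distrib]
        ring
      map_smul' := by
        intro t p
        simp only [Submodule.coe_smul, Prod.smul_fst, Prod.smul_snd, Pi.smul_apply,
          smul_eq_mul, RingHom.id_apply, mul_assoc, ← mul_sum]
        ring }
  have hker : ∀ p : P, f p = 0 → g p = 0 := by
    rintro ⟨⟨c, a⟩, hc, ha⟩ hp
    have h1 : ∀ j, row nb c j = - a j := by
      intro j
      have := congrFun hp j
      exact eq_neg_of_add_eq_zero_left this
    have h2 : c ∈ Lam nb l S := by
      refine ⟨hc.1, fun j hj => ?_⟩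
      rw [h1 j]
      have := ha j hj
      simp only at this
      rw [this, neg_zero]
    have h3 := hy c h2
    rw [sum_row] at h3
    show ∑ v, c v * x v + ∑ j, a j * y j = 0
    rw [← h3, ← sum_add_distrib]
    refine sum_eq_zero fun j _ => ?_
    rw [h1 j]
    ring
  have hg : g ∈ LinearMap.range f.dualMap := by
    rw [LinearMap.range_dualMap_eq_dualAnnihilator_ker, Submodule.mem_dualAnnihilator]
    intro p hp
    exact hker p (LinearMap.mem_ker.1 hp)
  obtain ⟨T, hT⟩ := hg
  have hT' : ∀ p : P, T (f p) = g p := fun p => by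
    rw [← hT]
    rfl
  have hTsum : ∀ w : J → ZMod 2, T w = ∑ j, w j * T (Pi.single j 1) := by
    intro w
    conv_lhs => rw [pi_eq_sum_univ' w]
    rw [map_sum]
    refine sum_congr rfl fun j _ => ?_
    rw [map_smul, smul_eq_mul]
  refine ⟨fun j => T (Pi.single j 1), ?_, ?_⟩
  · intro c hc
    rw [sum_row, ← hTsum]
    have h1 := hT' ⟨(c, 0), hc, fun j _ => rfl⟩
    have h2 : f ⟨(c, 0), hc, fun j _ => rfl⟩ = row nb c := by
      funext j
      show row nb c j + 0 = row nb c j
      rw [add_zero]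
    have h3 : g ⟨(c, 0), hc, fun j _ => rfl⟩ = ∑ v, c v * x v := by
      show ∑ v, c v * x v + ∑ j, (0 : J → ZMod 2) j * y j = _
      simp
    rw [h2, h3] at h1
    exact h1
  · intro j hj
    have hm : ((0 : ι → ZMod 2), (Pi.single j 1 : J → ZMod 2)) ∈ P := by
      refine ⟨Lam_zero nb l S', fun j' hj' => ?_⟩
      have : j' ≠ j := fun h => hj' (h ▸ hj)
      simp [this]
    have h1 := hT' ⟨_, hm⟩
    have h2 : f ⟨_, hm⟩ = Pi.single j 1 := by
      funext j'
      show row nb (0 : ι → ZMod 2) j' + _ = _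
      rw [row_zero, zero_add]
    have h3 : g ⟨_, hm⟩ = y j := by
      show ∑ v, (0 : ι → ZMod 2) v * x v + ∑ j', (Pi.single j 1 : J → ZMod 2) j' * y j' = _
      simp [Pi.single_apply]
    rw [h2, h3] at h1
    exact h1

end LinA

end Pool.Agent.H56.TSp
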