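import Pool.Agent.H56.TSp.LinA

/-!
# Local consistency: the rank function
-/

namespace Pool.Agent.H56.TSp

open Finset Module

set_option linter.unusedSectionVars false

section LinB

variable {ι J : Type*} [DecidableEq ι] [DecidableEq J] [Fintype ι] [Fintype J]

theorem mem_KS {nb : ι → Finset J} {l : ℕ} {S : Finset J} {y : J → ZMod 2} :
    y ∈ KS nb l S ↔ ∀ c ∈ Lam nb l S, ∑ v, c v * par nb y v = 0 := Iff.rfl

theorem mem_ZS {S : Finset J} {y : J → ZMod 2} : y ∈ ZS S ↔ ∀ j ∈ S, y j = 0 := Iff.rfl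

theorem ZS_le_KS (nb : ι → Finset J) (l : ℕ) (S : Finset J) : ZS S ≤ KS nb l S := by
  intro y hy c hc
  rw [sum_row]
  refine sum_eq_zero fun j _ => ?_
  by_cases hj : j ∈ S
  · rw [mem_ZS.1 hy j hj, mul_zero]
  · rw [hc.2 j hj, zero_mul]

theorem KS_anti (nb : ι → Finset J) (l : ℕ) {S S' : Finset J} (hSS : S ⊆ S') :
    KS nb l S' ≤ KS nb l S := fun _ hy c hc => hy c (Lam_mono nb l hSS hc)

theorem ZS_anti {S S' : Finset J} (hSS : S ⊆ S') : ZS (J := J) S' ≤ ZS S :=
  fun _ hy j hj => hy j (hSS hj)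

theorem KS_eq_sup (nb : ι → Finset J) (l : ℕ) (hE : Expands nb l) (S S' : Finset J)
    (hSS : S ⊆ S') (hS' : S'.card ≤ l) : KS nb l S = KS nb l S' ⊔ ZS S := by
  apply le_antisymm
  · intro y hy
    have hy' : y ∈ Con nb l (0 : ι → ZMod 2) S := by
      intro c hc
      rw [mem_KS.1 hy c hc]
      simp
    obtain ⟨y', h1, h2⟩ := Con_ext nb l hE 0 S S' hSS hS' y hy'
    rw [Submodule.mem_sup]
    refine ⟨y', ?_, y - y', ?_, by abel⟩
    · intro c hc
      rw [h1 c hc]
      simp
    · intro j hj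
      rw [Pi.sub_apply, h2 j hj, sub_self]
  · exact sup_le (KS_anti nb l hSS) (ZS_le_KS nb l S)

theorem rho_spec (nb : ι → Finset J) (l : ℕ) (S : Finset J) :
    finrank (ZMod 2) (KS nb l S) = finrank (ZMod 2) (ZS (J := J) S) + rho nb l S := by
  have := Submodule.finrank_mono (ZS_le_KS nb l S)
  rw [rho]
  omega

/-- Dimension of the space of vectors vanishing on `S`. -/
theorem finrank_ZS (S : Finset J) : finrank (ZMod 2) (ZS (J := J) S) + S.card = Fintype.card J := by
  let r : (J → ZMod 2) →ₗ[ZMod 2] (S → ZMod 2) :=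
    { toFun := fun y j => y j
      map_add' := fun _ _ => rfl
      map_smul' := fun _ _ => rfl }
  have hr : LinearMap.ker r = ZS S := by
    ext y
    rw [LinearMap.mem_ker, mem_ZS]
    constructor
    · intro h j hj
      exact congrFun h ⟨j, hj⟩
    · intro h
      funext j
      exact h j j.2
  have hsurj : LinearMap.range r = ⊤ := by
    rw [LinearMap.range_eq_top]
    intro w
    refine ⟨fun j => if h : j ∈ S then w ⟨j, h⟩ else 0, ?_⟩
    funext j
    show (if h : (j : J) ∈ S then w ⟨j, h⟩ else 0) = w j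
    rw [dif_pos j.2]
  have h1 := LinearMap.finrank_range_add_finrank_ker r
  rw [hr, hsurj, finrank_top, finrank_fintype_fun_eq_card, finrank_fintype_fun_eq_card,
    Fintype.card_coe] at h1
  omega

theorem rho_le_card (nb : ι → Finset J) (l : ℕ) (S : Finset J) : rho nb l S ≤ S.card := by
  have h1 := finrank_ZS S
  have h2 := rho_spec nb l S
  have h3 := Submodule.finrank_le (KS nb l S)
  rw [finrank_fintype_fun_eq_card] at h3
  omega

theorem card_le_two_rho (nb : ι → Finset J) (l : ℕ) (hE : Expands nb l) (S : Finset J)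
    (hS : S.card ≤ l) : S.card ≤ 2 * rho nb l S := by
  let r : (J → ZMod 2) →ₗ[ZMod 2] (Vs nb l S → ZMod 2) :=
    { toFun := fun y v => par nb y v
      map_add' := fun y y' => by
        funext v
        simp [par, sum_add_distrib]
      map_smul' := fun t y => by
        funext v
        simp [par, mul_sum] }
  have hr : LinearMap.ker r ≤ KS nb l S := by
    intro y hy c hc
    refine sum_eq_zero fun v _ => ?_
    by_cases hv : v ∈ Vs nb l S
    · have : par nb y v = 0 := congrFun (LinearMap.mem_ker.1 hy) ⟨v, hv⟩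
      rw [this, mul_zero]
    · have : c v = 0 := by
        by_contra h
        exact hv (by simp only [Vs, mem_filter, mem_univ, true_and]; exact ⟨c, hc, h⟩)
      rw [this, zero_mul]
  have h1 := LinearMap.finrank_range_add_finrank_ker r
  have h2 := Submodule.finrank_le (LinearMap.range r)
  rw [finrank_fintype_fun_eq_card, Fintype.card_coe] at h2
  rw [finrank_fintype_fun_eq_card] at h1
  have h3 := Submodule.finrank_mono hr
  have h4 := finrank_ZS S
  have h5 := rho_spec nb l S
  have h6 := Vs_card nb l hE S hS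
  omega

theorem rho_eq (nb : ι → Finset J) (l : ℕ) (hE : Expands nb l) (S T : Finset J)
    (hST : S ⊆ T) (hT : T.card ≤ l) :
    rho nb l S + finrank (ZMod 2) ↥(KS nb l T ⊓ ZS S) = finrank (ZMod 2) (KS nb l T) := by
  have h1 := rho_spec nb l S
  have h2 := Submodule.finrank_sup_add_finrank_inf_eq (KS nb l T) (ZS S)
  rw [← KS_eq_sup nb l hE S T hST hT] at h2
  omega

theorem rho_mono (nb : ι → Finset J) (l : ℕ) (hE : Expands nb l) (S S' : Finset J)
    (hSS : S ⊆ S') (hS' : S'.card ≤ l) : rho nb l S ≤ rho nb l S' := by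
  have h1 := rho_eq nb l hE S S' hSS hS'
  have h2 := rho_spec nb l S'
  have h3 : ZS S' ≤ KS nb l S' ⊓ ZS S := le_inf (ZS_le_KS nb l S') (ZS_anti hSS)
  have h4 := Submodule.finrank_mono h3
  omega

theorem rho_submod (nb : ι → Finset J) (l : ℕ) (hE : Expands nb l) (S S' : Finset J)
    (hS' : (S ∪ S').card ≤ l) :
    rho nb l (S ∪ S') + rho nb l (S ∩ S') ≤ rho nb l S + rho nb l S' := by
  have h1 := rho_eq nb l hE (S ∪ S') (S ∪ S') (Subset.refl _) hS'
  have h2 := rho_eq nb l hE (S ∩ S') (S ∪ S') (inter_subset_left.trans subset_union_left) hS'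
  have h3 := rho_eq nb l hE S (S ∪ S') subset_union_left hS'
  have h4 := rho_eq nb l hE S' (S ∪ S') subset_union_right hS'
  have h5 := Submodule.finrank_sup_add_finrank_inf_eq (KS nb l (S ∪ S') ⊓ ZS S)
    (KS nb l (S ∪ S') ⊓ ZS S')
  have h6 : (KS nb l (S ∪ S') ⊓ ZS S) ⊓ (KS nb l (S ∪ S') ⊓ ZS S') ≤
      KS nb l (S ∪ S') ⊓ ZS (S ∪ S') := by
    rintro y ⟨⟨ha, hb⟩, -, hc⟩
    refine ⟨ha, fun j hj => ?_⟩
    rcases mem_union.1 hj with h | h
    · exact hb j h
    · exact hc j h
  have h7 : (KS nb l (S ∪ S') ⊓ ZS S) ⊔ (KS nb l (S ∪ S') ⊓ ZS S') ≤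
      KS nb l (S ∪ S') ⊓ ZS (S ∩ S') :=
    sup_le (inf_le_inf_left _ (ZS_anti inter_subset_left))
      (inf_le_inf_left _ (ZS_anti inter_subset_right))
  have h8 := Submodule.finrank_mono h6
  have h9 := Submodule.finrank_mono h7
  omega

end LinB

end Pool.Agent.H56.TSp
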