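import Pool.Agent.H56.TSp.Defs

/-!
# Local consistency: definitions

`nb v` is the set of `y`-variables whose parity is the base variable `v`. For a world
`x : ι → ZMod 2` and a set `S` of `y`-variables, `Con x S` is the set of `y` obeying all
combinations of at most `l` parity constraints which are supported in `S`.
-/

namespace Pool.Agent.H56.TSp

open Finset

variable {ι J : Type*} [DecidableEq ι] [DecidableEq J] [Fintype ι] [Fintype J]

/-- The combination of the neighbourhood vectors with the coefficients `c`. -/
def row (nb : ι → Finset J) (c : ι → ZMod 2) (j : J) : ZMod 2 :=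
  ∑ v, if j ∈ nb v then c v else 0

/-- The support of a coefficient vector. -/
def csupp (c : ι → ZMod 2) : Finset ι := univ.filter fun v => c v ≠ 0

/-- The small combinations supported in `S`. -/
def Lam (nb : ι → Finset J) (l : ℕ) (S : Finset J) : Set (ι → ZMod 2) :=
  {c | (csupp c).card ≤ l ∧ ∀ j, j ∉ S → row nb c j = 0}

/-- The `y` which are locally consistent on `S` with the world `x`. -/
def Con (nb : ι → Finset J) (l : ℕ) (x : ι → ZMod 2) (S : Finset J) : Set (J → ZMod 2) :=
  {y | ∀ c ∈ Lam nb l S, ∑ v, c v * par nb y v = ∑ v, c v * x v}

/-- The direction space of `Con x S`. -/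
def KS (nb : ι → Finset J) (l : ℕ) (S : Finset J) : Submodule (ZMod 2) (J → ZMod 2) where
  carrier := {y | ∀ c ∈ Lam nb l S, ∑ v, c v * par nb y v = 0}
  add_mem' := by
    intro a b ha hb c hc
    have h1 := ha c hc
    have h2 := hb c hc
    have : ∀ v, c v * par nb (a + b) v = c v * par nb a v + c v * par nb b v := by
      intro v
      simp only [par, Pi.add_apply, sum_add_distrib, mul_add]
    simp only [this, sum_add_distrib, h1, h2, add_zero]
  zero_mem' := by
    intro c _
    simp [par]
  smul_mem' := by
    intro t a ha c hc
    have h1 := ha c hc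
    have : ∀ v, c v * par nb (t • a) v = t * (c v * par nb a v) := by
      intro v
      simp only [par, Pi.smul_apply, smul_eq_mul, ← mul_sum]
      ring
    simp only [this, ← mul_sum, h1, mul_zero]

/-- The vectors vanishing on `S`. -/
def ZS (S : Finset J) : Submodule (ZMod 2) (J → ZMod 2) where
  carrier := {y | ∀ j ∈ S, y j = 0}
  add_mem' := by
    intro a b ha hb j hj
    simp [ha j hj, hb j hj]
  zero_mem' := by
    intro j _
    rfl
  smul_mem' := by
    intro t a ha j hj
    simp [ha j hj]

open Classical in
/-- The base variables on which `Con x S` depends. -/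
noncomputable def Vs (nb : ι → Finset J) (l : ℕ) (S : Finset J) : Finset ι :=
  univ.filter fun v => ∃ c ∈ Lam nb l S, c v ≠ 0

/-- The boundary of a set of base variables: the `y`-variables with exactly one neighbour. -/
def bdry (nb : ι → Finset J) (X : Finset ι) : Finset J :=
  univ.filter fun j => (X.filter fun v => j ∈ nb v).card = 1

/-- Boundary expansion up to size `l`. -/
def Expands (nb : ι → Finset J) (l : ℕ) : Prop :=
  ∀ X : Finset ι, X.card ≤ l → 2 * X.card ≤ (bdry nb X).card

/-- The rank of the coordinates `S`: the dimension of the restriction of `KS` to `S`. -/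
noncomputable def rho (nb : ι → Finset J) (l : ℕ) (S : Finset J) : ℕ :=
  Module.finrank (ZMod 2) (KS nb l S) - Module.finrank (ZMod 2) (ZS (J := J) S)

end Pool.Agent.H56.TSp
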