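import Pool.Agent.H56.TSp.Defs

/-!
# Upper bounds: constant width refutations of the lifted pebbling formulas (job TSP-C, helper77)
-/

namespace Pool.Agent.H56.TSp

open Finset

section Upper

variable {V : Type*} [DecidableEq V]

/-- Clauses derivable from `F` by resolution in width at most `w`. -/
inductive Der (F : Finset (Clause V)) (w : ℕ) : Clause V → Prop
  | ax (D : Clause V) : D ∈ F → D.card ≤ w → Der F w D
  | res (A B R : Clause V) : Der F w A → Der F w B → Resolvent A B R → R.card ≤ w → Der F w R

theorem card_le_of_width [Fintype V] (F : Finset (Clause V)) (w : ℕ)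
    (h : ∀ D ∈ F, D.card ≤ w) : F.card ≤ (2 * Fintype.card V + 1) ^ w := by
  classical
  let g : (Fin w → Option (V × Bool)) → Clause V := fun f =>
    univ.filter fun p => ∃ i, f i = some p
  have hsub : F ⊆ univ.image g := by
    intro D hD
    rw [Finset.mem_image]
    refine ⟨fun i => D.toList[(i : ℕ)]?, Finset.mem_univ _, ?_⟩
    ext p
    simp only [g, Finset.mem_filter, Finset.mem_univ, true_and]
    constructor
    · rintro ⟨i, hi⟩
      have := List.mem_of_getElem? hi
      simpa using this
    · intro hp
      have hp' : p ∈ D.toList := by simpa using hp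
      obtain ⟨n, hn⟩ := List.mem_iff_getElem?.mp hp'
      have hlt : n < D.toList.length := by
        by_contra hcon
        rw [List.getElem?_eq_none (by omega)] at hn
        cases hn
      have hw : n < w := by
        have := h D hD
        rw [Finset.length_toList] at hlt
        omega
      exact ⟨⟨n, hw⟩, hn⟩
  calc F.card ≤ (univ.image g).card := Finset.card_le_card hsub
    _ ≤ (univ : Finset (Fin w → Option (V × Bool))).card := Finset.card_image_le
    _ = (2 * Fintype.card V + 1) ^ w := by
      simp [Finset.card_univ, Fintype.card_option, Fintype.card_prod, mul_comm]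

/-- Duplicate-free derivations (in reverse order) of width at most `w`. -/
inductive Chn (F : Finset (Clause V)) (w : ℕ) : List (Clause V) → Prop
  | nil : Chn F w []
  | cons (D : Clause V) (l : List (Clause V)) : Chn F w l → D ∉ l → D.card ≤ w →
      (D ∈ F ∨ ∃ A ∈ l, ∃ B ∈ l, Resolvent A B D) → Chn F w (D :: l)

theorem Chn.nodup {F : Finset (Clause V)} {w : ℕ} {l : List (Clause V)} (h : Chn F w l) :
    l.Nodup := by
  induction h with
  | nil => exact List.nodup_nil
  | cons D l _ hD _ _ ih => exact List.nodup_cons.mpr ⟨hD, ih⟩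

theorem Chn.width {F : Finset (Clause V)} {w : ℕ} {l : List (Clause V)} (h : Chn F w l) :
    ∀ D ∈ l, D.card ≤ w := by
  induction h with
  | nil => intro D hD; simp at hD
  | cons D l _ _ hw _ ih =>
    intro E hE
    rcases List.mem_cons.mp hE with rfl | hE
    · exact hw
    · exact ih E hE

theorem Chn.length_le [Fintype V] {F : Finset (Clause V)} {w : ℕ} {l : List (Clause V)}
    (h : Chn F w l) : l.length ≤ (2 * Fintype.card V + 1) ^ w := by
  have h1 := card_le_of_width l.toFinset w (fun D hD => h.width D (by simpa using hD))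
  rwa [List.toFinset_card_of_nodup h.nodup] at h1

theorem Chn.seq {F : Finset (Clause V)} {w : ℕ} {l : List (Clause V)} (h : Chn F w l) :
    ∃ D : ℕ → Clause V,
      (∀ i < l.length, D i ∈ F ∨ ∃ j < i, ∃ k < i, Resolvent (D j) (D k) (D i)) ∧
      ∀ A ∈ l, ∃ i < l.length, D i = A := by
  induction h with
  | nil => exact ⟨fun _ => ∅, by simp, by simp⟩
  | cons E l _ _ _ hE ih =>
    obtain ⟨D, h1, h2⟩ := ih
    have hne : ∀ i < l.length, Function.update D l.length E i = D i := fun i hi =>
      Function.update_of_ne (by omega) _ _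
    refine ⟨Function.update D l.length E, ?_, ?_⟩
    · intro i hi
      rw [List.length_cons] at hi
      rcases Nat.lt_or_ge i l.length with hlt | hge
      · rw [hne i hlt]
        rcases h1 i hlt with h | ⟨j, hj, k, hk, hr⟩
        · exact Or.inl h
        · refine Or.inr ⟨j, hj, k, hk, ?_⟩
          rw [hne j (by omega), hne k (by omega)]
          exact hr
      · have hi' : i = l.length := by omega
        subst hi'
        rw [Function.update_self]
        rcases hE with h | ⟨A, hA, B, hB, hr⟩
        · exact Or.inl h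
        · obtain ⟨j, hj, hjA⟩ := h2 A hA
          obtain ⟨k, hk, hkB⟩ := h2 B hB
          refine Or.inr ⟨j, hj, k, hk, ?_⟩
          rw [hne j hj, hne k hk, hjA, hkB]
          exact hr
    · intro A hA
      rcases List.mem_cons.mp hA with rfl | hA
      · exact ⟨l.length, by simp, Function.update_self _ _ _⟩
      · obtain ⟨i, hi, hiA⟩ := h2 A hA
        exact ⟨i, by rw [List.length_cons]; omega, by rw [hne i hi]; exact hiA⟩

theorem refutation_of_der [Fintype V] (F : Finset (Clause V)) (w : ℕ) (h : Der F w ∅) :
    ∃ m D, m + 1 ≤ (2 * Fintype.card V + 1) ^ w ∧ IsRefutation F m D := by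
  classical
  -- a derivation of maximal length
  obtain ⟨l, hl, hmax⟩ : ∃ l, Chn F w l ∧ ∀ l', Chn F w l' → l'.length ≤ l.length := by
    let P : ℕ → Prop := fun n => ∃ l, Chn F w l ∧ l.length = n
    have hP0 : P 0 := ⟨[], Chn.nil, rfl⟩
    have hb : ∀ n, P n → n ≤ (2 * Fintype.card V + 1) ^ w := by
      rintro n ⟨l, hl, rfl⟩
      exact hl.length_le
    obtain ⟨l, hl, hlen⟩ := Nat.findGreatest_spec (P := P) (Nat.zero_le _) hP0
    refine ⟨l, hl, fun l' hl' => ?_⟩
    rw [hlen]
    exact Nat.le_findGreatest (hb _ ⟨l', hl', rfl⟩) ⟨l', hl', rfl⟩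
  have hmem : ∀ D, Der F w D → D ∈ l := by
    intro D hD
    induction hD with
    | ax D hDF hw =>
      by_contra hcon
      have := hmax _ (Chn.cons D l hl hcon hw (Or.inl hDF))
      rw [List.length_cons] at this
      omega
    | res A B R _ _ hr hw ihA ihB =>
      by_contra hcon
      have := hmax _ (Chn.cons R l hl hcon hw (Or.inr ⟨A, ihA, B, ihB, hr⟩))
      rw [List.length_cons] at this
      omega
  obtain ⟨D, h1, h2⟩ := hl.seq
  obtain ⟨m, hm, hDm⟩ := h2 ∅ (hmem ∅ h)
  exact ⟨m, D, le_trans hm hl.length_le, fun i hi => h1 i (by omega), hDm⟩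

variable {ι J : Type*} [DecidableEq ι] [DecidableEq J] [Fintype ι] [Fintype J]

theorem mem_fullClause {S : Finset J} {y : J → ZMod 2} {p : J × Bool} :
    p ∈ fullClause S y ↔ p.1 ∈ S ∧ p.2 = decide (y p.1 = 0) := by
  unfold fullClause
  rw [Finset.mem_image]
  constructor
  · rintro ⟨j, hj, rfl⟩
    exact ⟨hj, rfl⟩
  · rintro ⟨h1, h2⟩
    exact ⟨p.1, h1, by rw [← h2]⟩

theorem fullClause_mono {S T : Finset J} (h : S ⊆ T) (y : J → ZMod 2) :
    fullClause S y ⊆ fullClause T y :=
  Finset.image_subset_image h

theorem fullClause_card (S : Finset J) (y : J → ZMod 2) : (fullClause S y).card ≤ S.card :=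
  Finset.card_image_le

omit [Fintype J] in
theorem fullClause_congr {S : Finset J} {y y' : J → ZMod 2} (h : ∀ j ∈ S, y j = y' j) :
    fullClause S y = fullClause S y' := by
  unfold fullClause
  apply Finset.image_congr
  intro j hj
  simp only
  rw [h j hj]

/-- Local implication: if every assignment that agrees with `y₀` on `S` falsifies a derivable
clause with variables in `U`, then a subclause of `fullClause S y₀` is derivable. -/
theorem local_impl (F : Finset (Clause J)) (w : ℕ) (U : Finset J) :
    ∀ (n : ℕ) (S : Finset J) (y₀ : J → ZMod 2), (U \ S).card = n → (S ∪ U).card ≤ w →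
      (∀ y : J → ZMod 2, (∀ j ∈ S, y j = y₀ j) → ∃ A, Der F w A ∧ A ⊆ fullClause U y) →
      ∃ D, D ⊆ fullClause S y₀ ∧ Der F w D := by
  intro n
  induction n with
  | zero =>
    intro S y₀ hn _ hy
    have hUS : U ⊆ S := by
      rw [Finset.card_eq_zero, Finset.sdiff_eq_empty_iff_subset] at hn
      exact hn
    obtain ⟨A, hA, hAU⟩ := hy y₀ (fun _ _ => rfl)
    exact ⟨A, hAU.trans (fullClause_mono hUS y₀), hA⟩
  | succ n ih =>
    intro S y₀ hn hw hy
    obtain ⟨u, hu⟩ : (U \ S).Nonempty := by
      rw [← Finset.card_pos]; omega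
    obtain ⟨huU, huS⟩ := Finset.mem_sdiff.mp hu
    have hcard : (U \ insert u S).card = n := by
      have : U \ insert u S = (U \ S).erase u := by
        ext x
        simp only [Finset.mem_sdiff, Finset.mem_insert, Finset.mem_erase]
        tauto
      rw [this, Finset.card_erase_of_mem hu, hn]
      rfl
    have hun : insert u S ∪ U = S ∪ U := by
      ext x
      simp only [Finset.mem_union, Finset.mem_insert]
      constructor
      · rintro ((rfl | h) | h)
        · exact Or.inr huU
        · exact Or.inl h
        · exact Or.inr h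
      · rintro (h | h)
        · exact Or.inl (Or.inr h)
        · exact Or.inr h
    have key : ∀ b : ZMod 2, ∃ D, D ⊆ fullClause (insert u S) (Function.update y₀ u b) ∧
        Der F w D := by
      intro b
      refine ih (insert u S) (Function.update y₀ u b) hcard (by rw [hun]; exact hw) ?_
      intro y hyy
      refine hy y fun j hj => ?_
      have h1 := hyy j (Finset.mem_insert_of_mem hj)
      rwa [Function.update_of_ne (by rintro rfl; exact huS hj)] at h1
    have hfc : ∀ b : ZMod 2, ∀ p ∈ fullClause (insert u S) (Function.update y₀ u b),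
        p = (u, decide (b = 0)) ∨ p ∈ fullClause S y₀ := by
      intro b p hp
      rw [mem_fullClause] at hp
      obtain ⟨h1, h2⟩ := hp
      rcases Finset.mem_insert.mp h1 with h | h
      · left
        rw [h, Function.update_self] at h2
        exact Prod.ext h h2
      · right
        rw [mem_fullClause]
        refine ⟨h, ?_⟩
        rwa [Function.update_of_ne (by intro h'; rw [h'] at h; exact huS h)] at h2
    obtain ⟨D₁, hD₁, hd₁⟩ := key 0
    obtain ⟨D₂, hD₂, hd₂⟩ := key 1
    by_cases hu1 : (u, true) ∈ D₁
    · by_cases hu2 : (u, false) ∈ D₂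
      · have hsub : D₁.erase (u, true) ∪ D₂.erase (u, false) ⊆ fullClause S y₀ := by
          intro p hp
          rcases Finset.mem_union.mp hp with hp | hp
          · obtain ⟨h1, h2⟩ := Finset.mem_erase.mp hp
            rcases hfc 0 p (hD₁ h2) with h | h
            · exact absurd (by simpa using h) h1
            · exact h
          · obtain ⟨h1, h2⟩ := Finset.mem_erase.mp hp
            rcases hfc 1 p (hD₂ h2) with h | h
            · exact absurd (by simpa using h) h1
            · exact h
        refine ⟨_, hsub, Der.res D₁ D₂ _ hd₁ hd₂ ⟨u, hu1, hu2, rfl⟩ ?_⟩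
        calc _ ≤ (fullClause S y₀).card := Finset.card_le_card hsub
          _ ≤ S.card := fullClause_card S y₀
          _ ≤ (S ∪ U).card := Finset.card_le_card Finset.subset_union_left
          _ ≤ w := hw
      · refine ⟨D₂, fun p hp => ?_, hd₂⟩
        rcases hfc 1 p (hD₂ hp) with h | h
        · exact absurd (by simpa [h] using hp) hu2
        · exact h
    · refine ⟨D₁, fun p hp => ?_, hd₁⟩
      rcases hfc 0 p (hD₁ hp) with h | h
      · exact absurd (by simpa [h] using hp) hu1
      · exact h

theorem axVars_card (prem : ι → Finset ι) (z : ι) (hp : ∀ v, (prem v).card ≤ 2)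
    (a : Option ι) : (axVars prem z a).card ≤ 3 := by
  cases a with
  | none => simp [axVars]
  | some v =>
    have := Finset.card_insert_le v (prem v)
    have := hp v
    simp only [axVars]
    omega

theorem axU_card (nb : ι → Finset J) (prem : ι → Finset ι) (z : ι) (d : ℕ)
    (hd : ∀ v, (nb v).card ≤ d) (hp : ∀ v, (prem v).card ≤ 2) (a : Option ι) :
    ((axVars prem z a).biUnion nb).card ≤ 3 * d := by
  calc ((axVars prem z a).biUnion nb).card ≤ (axVars prem z a).card * d :=
        Finset.card_biUnion_le_card_mul _ _ _ fun v _ => hd v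
    _ ≤ 3 * d := Nat.mul_le_mul_right d (axVars_card prem z hp a)

theorem mem_liftedCNF {nb : ι → Finset J} {prem : ι → Finset ι} {z : ι} {D : Clause J} :
    D ∈ liftedCNF nb prem z ↔ ∃ (a : Option ι) (y : J → ZMod 2),
      ¬ SatAx prem z (par nb y) a ∧ fullClause ((axVars prem z a).biUnion nb) y = D := by
  classical
  unfold liftedCNF
  simp only [Finset.mem_biUnion, Finset.mem_univ, true_and, Finset.mem_image,
    Finset.mem_filter]

theorem lifted_width (nb : ι → Finset J) (prem : ι → Finset ι) (z : ι) (d : ℕ)
    (hd : ∀ v, (nb v).card ≤ d) (hp : ∀ v, (prem v).card ≤ 2) :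
    ∀ D ∈ liftedCNF nb prem z, D.card ≤ 3 * d := by
  intro D hD
  obtain ⟨a, y, _, rfl⟩ := mem_liftedCNF.mp hD
  exact (fullClause_card _ _).trans (axU_card nb prem z d hd hp a)

theorem lifted_der (nb : ι → Finset J) (prem : ι → Finset ι) (z : ι) (d : ℕ)
    (hd : ∀ v, (nb v).card ≤ d) (hp : ∀ v, (prem v).card ≤ 2) (rk : ι → ℕ)
    (hrk : ∀ v, ∀ u ∈ prem v, rk u < rk v) :
    Der (liftedCNF nb prem z) (3 * d) ∅ := by
  have hax : ∀ (a : Option ι) (y : J → ZMod 2), ¬ SatAx prem z (par nb y) a →
      Der (liftedCNF nb prem z) (3 * d) (fullClause ((axVars prem z a).biUnion nb) y) := by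
    intro a y h
    have hmem : fullClause ((axVars prem z a).biUnion nb) y ∈ liftedCNF nb prem z :=
      mem_liftedCNF.mpr ⟨a, y, h, rfl⟩
    exact Der.ax _ hmem (lifted_width nb prem z d hd hp _ hmem)
  have main : ∀ (n : ℕ) (v : ι), rk v = n → ∀ y₀ : J → ZMod 2, par nb y₀ v ≠ 1 →
      ∃ D, D ⊆ fullClause (nb v) y₀ ∧ Der (liftedCNF nb prem z) (3 * d) D := by
    intro n
    induction n using Nat.strong_induction_on with
    | _ n ih =>
      intro v hv y₀ hy₀
      have hvU : nb v ⊆ (axVars prem z (some v)).biUnion nb :=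
        Finset.subset_biUnion_of_mem nb (by simp [axVars])
      refine local_impl _ _ ((axVars prem z (some v)).biUnion nb) _ (nb v) y₀ rfl ?_ ?_
      · rw [Finset.union_eq_right.mpr hvU]
        exact axU_card nb prem z d hd hp (some v)
      · intro y hy
        have hpar : par nb y v = par nb y₀ v := by
          unfold par
          exact Finset.sum_congr rfl hy
        by_cases hall : ∀ u ∈ prem v, par nb y u = 1
        · refine ⟨_, hax (some v) y ?_, Finset.Subset.refl _⟩
          intro hs
          exact hy₀ (hpar ▸ hs hall)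
        · push Not at hall
          obtain ⟨u, hu, hpu⟩ := hall
          obtain ⟨D, hD, hd'⟩ := ih (rk u) (hv ▸ hrk v u hu) u rfl y hpu
          refine ⟨D, hd', hD.trans (fullClause_mono ?_ y)⟩
          exact Finset.subset_biUnion_of_mem nb (by simp [axVars, hu])
  have hz : (axVars prem z none).biUnion nb = nb z := by simp [axVars]
  obtain ⟨D, hD, hd'⟩ := local_impl (liftedCNF nb prem z) (3 * d) (nb z) _ ∅ 0 rfl
    (by
      rw [Finset.empty_union]
      have := hd z
      omega)
    (by
      intro y _
      by_cases h1 : par nb y z = 1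
      · have := hax none y (by simpa [SatAx] using h1)
        rw [hz] at this
        exact ⟨_, this, Finset.Subset.refl _⟩
      · obtain ⟨D, hD, hd'⟩ := main _ z rfl y h1
        exact ⟨D, hd', hD⟩)
  have : D = ∅ := by
    rw [← Finset.subset_empty]
    intro p hp
    have := mem_fullClause.mp (hD hp)
    simp at this
  rwa [this] at hd'

theorem bprem_card (L q : ℕ) (v : BV L q) : (bprem L q v).card ≤ 2 := by
  unfold bprem
  rw [Finset.filter_or]
  refine (Finset.card_union_le _ _).trans ?_
  have h1 : (univ.filter fun u : BV L q =>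
      u.1 = v.1 ∧ u.2.1 = v.2.1 ∧ (u.2.2 : ℕ) + 1 = (v.2.2 : ℕ)).card ≤ 1 := by
    rw [Finset.card_le_one]
    intro a ha b hb
    simp only [Finset.mem_filter, Finset.mem_univ, true_and] at ha hb
    refine Prod.ext (ha.1.trans hb.1.symm) (Prod.ext (ha.2.1.trans hb.2.1.symm) ?_)
    apply Fin.ext
    have h1 := ha.2.2
    have h2 := hb.2.2
    omega
  have h2 : (univ.filter fun u : BV L q =>
      (u.1 : ℕ) + 1 = (v.1 : ℕ) ∧ u.2.1 = v.2.2 ∧ u.2.2 = Fin.last q).card ≤ 1 := by
    rw [Finset.card_le_one]
    intro a ha b hb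
    simp only [Finset.mem_filter, Finset.mem_univ, true_and] at ha hb
    refine Prod.ext ?_ (Prod.ext (ha.2.1.trans hb.2.1.symm) (ha.2.2.trans hb.2.2.symm))
    apply Fin.ext
    have h1 := ha.1
    have h2 := hb.1
    omega
  omega

theorem bprem_rank (L q : ℕ) : ∃ rk : BV L q → ℕ, ∀ v, ∀ u ∈ bprem L q v, rk u < rk v := by
  refine ⟨fun v => (v.1 : ℕ) * (q + 1) + (v.2.2 : ℕ), fun v u hu => ?_⟩
  simp only [bprem, Finset.mem_filter, Finset.mem_univ, true_and] at hu
  rcases hu with ⟨h1, _, h3⟩ | ⟨h1, _, h3⟩
  · simp only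
    rw [h1]
    omega
  · simp only
    rw [← h1, h3, Fin.val_last]
    have : ((u.1 : ℕ) + 1) * (q + 1) = (u.1 : ℕ) * (q + 1) + (q + 1) := by ring
    omega

end Upper

end Pool.Agent.H56.TSp
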