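import Pool.Agent.H56.TSp.Supp
import Pool.Agent.H56.TSp.Base
import Pool.Agent.H56.TSp.Upper

/-!
# The total space lower bound for the lifted formula
-/

set_option linter.unusedSectionVars false

namespace Pool.Agent.H56.TSp

open Finset

variable {ι J : Type*} [DecidableEq ι] [DecidableEq J] [Fintype ι] [Fintype J]

section

variable {nb : ι → Finset J} {l M r : ℕ}

/-- One step of a space-aware refutation, seen on the invariant. -/
theorem step_trace (hE : Expands nb l) (hl : 8 * (M + r ^ 3) + 1 ≤ l) (hr1 : 1 ≤ r)
    (prem : ι → Finset ι) (z : ι) (hM : ∀ a, ((axVars prem z a).biUnion nb).card ≤ M)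
    {C C' : Finset (Clause J)} (hstep : Step (liftedCNF nb prem z) C C')
    (hr : (Bigs nb l M C').card ≤ r) :
    (∃ a, axVars prem z a ⊆ VC nb l M r C' ∧
      ∀ x, Inv nb l M r C x → SatAx prem z x a → Inv nb l M r C' x) ∨
    (∀ x, Inv nb l M r C x → Inv nb l M r C' x) := by
  classical
  have hr2 : r ^ 2 ≤ r ^ 3 := Nat.pow_le_pow_right hr1 (by norm_num)
  have hr3 : r ≤ r ^ 3 := by
    calc r = r ^ 1 := (pow_one r).symm
      _ ≤ r ^ 3 := Nat.pow_le_pow_right hr1 (by norm_num)
  have hr4 : 1 ≤ r ^ 2 := Nat.one_le_pow _ _ hr1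
  cases hstep with
  | ax D hD =>
    left
    rw [mem_liftedCNF] at hD
    obtain ⟨a, y₀, hy₀, rfl⟩ := hD
    refine ⟨a, ?_, ?_⟩
    · intro v hv
      unfold VC
      apply mem_union_left
      rw [mem_biUnion]
      refine ⟨fullClause ((axVars prem z a).biUnion nb) y₀,
        mem_filter.2 ⟨mem_insert_self _ _, ?_, ?_⟩, ?_⟩
      · rw [cvars_fullClause]
        have := hM a
        omega
      · refine (rho_le_card nb l _).trans ?_
        rw [cvars_fullClause]
        exact hM a
      · rw [cvars_fullClause]
        exact mem_Vs_of_nb (by omega) (subset_biUnion_of_mem nb hv)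
    · intro x hx hsat
      exact inv_ax (by omega) prem z hx a hsat (hM a) y₀ hy₀
  | res A B R hA hB hres =>
    right
    intro x hx
    obtain ⟨v, hvA, hvB, rfl⟩ := hres
    have hAs : A ⊆ insert (v, true) (A.erase (v, true) ∪ B.erase (v, false)) := by
      intro p hp
      by_cases h : p = (v, true)
      · rw [h]; exact mem_insert_self _ _
      · exact mem_insert_of_mem (mem_union_left _ (mem_erase.2 ⟨h, hp⟩))
    have hBs : B ⊆ insert (v, false) (A.erase (v, true) ∪ B.erase (v, false)) := by
      intro p hp
      by_cases h : p = (v, false)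
      · rw [h]; exact mem_insert_self _ _
      · exact mem_insert_of_mem (mem_union_right _ (mem_erase.2 ⟨h, hp⟩))
    by_cases hs : Small nb l M (A.erase (v, true) ∪ B.erase (v, false))
    · exact inv_res_small hE (by omega) (by omega) hx hA hB hAs hBs hs
    · exact inv_res_big hE (by omega) hx hA hB hAs hBs hs hr
  | del C' hC =>
    right
    intro x hx
    exact inv_del hC hx

end

/-- The lower bound for the lifted layered pebbling formula. -/
theorem lower_lifted {L q s M r l : ℕ} {nb : BV L q → Finset J} (hE : Expands nb l)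
    (hl : 8 * (M + r ^ 3) + 1 ≤ l) (hr1 : 1 ≤ r)
    (hM : ∀ a, ((axVars (bprem L q) (bsink L q) a).biUnion nb).card ≤ M)
    (hs : M * r + 2 * (r * (M + r ^ 3)) ≤ 2 * s) (hL : s ≤ L) (hq : 2 * s ≤ q)
    (t : ℕ) (C : ℕ → Finset (Clause J))
    (hC : IsSpaceRefutation (liftedCNF nb (bprem L q) (bsink L q)) t C) :
    ∃ i ≤ t, M * r ≤ totalSpace (C i) := by
  classical
  by_contra hcon
  push Not at hcon
  obtain ⟨hC0, hCs, hCt⟩ := hC
  have hr2 : r ^ 2 ≤ r ^ 3 := Nat.pow_le_pow_right hr1 (by norm_num)
  have hr3 : r ≤ r ^ 3 := by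
    calc r = r ^ 1 := (pow_one r).symm
      _ ≤ r ^ 3 := Nat.pow_le_pow_right hr1 (by norm_num)
  have hr4 : 1 ≤ r ^ 2 := Nat.one_le_pow _ _ hr1
  have hB : ∀ i ≤ t, (Bigs nb l M (C i)).card ≤ r := by
    intro i hi
    have h1 := Bigs_card_mul (nb := nb) (l := l) (M := M) (C i)
    have h2 := hcon i hi
    by_contra h3
    push Not at h3
    have h4 : r * M ≤ (Bigs nb l M (C i)).card * (M + 1) := Nat.mul_le_mul h3.le (by omega)
    have h5 : M * r = r * M := mul_comm _ _
    omega
  have hV : ∀ i ≤ t, (VC nb l M r (C i)).card ≤ s := by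
    intro i hi
    have h1 := VC_card hE (M := M) (r := r) (by omega) (hB i hi)
    have h2 := hcon i hi
    omega
  have hst : ∀ i, ∃ φ : Option (Option (BV L q)), i < t →
      (∀ a, φ = some a → axVars (bprem L q) (bsink L q) a ⊆ VC nb l M r (C (i + 1))) ∧
      ∀ x, Inv nb l M r (C i) x →
        (∀ a, φ = some a → SatAx (bprem L q) (bsink L q) x a) → Inv nb l M r (C (i + 1)) x := by
    intro i
    by_cases hi : i < t
    · rcases step_trace hE hl hr1 _ _ hM (hCs i hi) (hB (i + 1) hi) with ⟨a, h1, h2⟩ | h
      · refine ⟨some a, fun _ => ⟨?_, ?_⟩⟩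
        · intro b hb
          rw [Option.some.injEq] at hb
          rw [← hb]
          exact h1
        · intro x hx hb
          exact h2 x hx (hb a rfl)
      · refine ⟨none, fun _ => ⟨?_, ?_⟩⟩
        · intro b hb
          simp at hb
        · intro x hx _
          exact h x hx
    · exact ⟨none, fun h => absurd h hi⟩
  choose φ hφ using hst
  obtain ⟨i, hi, hc⟩ := base_lower L q s hL hq t (fun i => {x | Inv nb l M r (C i) x})
    (fun i => VC nb l M r (C i)) φ
    (by
      ext x
      simp only [Set.mem_ofPred_eq, Set.mem_univ, iff_true, hC0]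
      exact inv_empty x)
    (by
      ext x
      simp only [Set.mem_ofPred_eq, Set.mem_empty_iff_false, iff_false]
      exact not_inv_of_bot hE hCt x)
    (by
      rw [← card_eq_zero]
      have h0 : VC nb l M r (∅ : Finset (Clause J)) = ∅ := by
        rw [eq_empty_iff_forall_notMem]
        intro v hv
        unfold VC at hv
        rw [mem_union, mem_biUnion, mem_biUnion] at hv
        rcases hv with ⟨D, hD, _⟩ | ⟨R, hR, hvR⟩
        · simp at hD
        · rw [mem_filter, mem_powerset] at hR
          have hR0 : R = ∅ := by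
            rw [eq_empty_iff_forall_notMem]
            intro W hW
            have := hR.1 hW
            rw [mem_Bigs] at this
            simp at this
          rw [hR0] at hvR
          have h1 := Vs_card nb l hE ∅ (by simp)
          have h3 : svars (∅ : Finset (Clause J)) = ∅ := by simp [svars]
          rw [h3] at hvR
          have h4 : 0 < (Vs nb l (∅ : Finset J)).card := card_pos.2 ⟨v, hvR⟩
          simp only [card_empty] at h1
          omega
      simp only [hC0, h0, card_empty])
    (by
      intro i hi x x' hxx hx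
      exact inv_congr hE (by omega) (hB i hi) hxx hx)
    (by
      intro i hi x hx hsat
      exact (hφ i hi).2 x hx hsat)
    (by
      intro i hi a ha
      exact (hφ i hi).1 a ha)
  exact absurd hc (not_lt.2 (hV i hi))

end Pool.Agent.H56.TSp
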