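import Pool.Agent.H56.TSp.Inv

/-!
# The invariant depends on few base variables
-/

set_option linter.unusedSectionVars false

namespace Pool.Agent.H56.TSp

open Finset

variable {ι J : Type*} [DecidableEq ι] [DecidableEq J] [Fintype ι] [Fintype J]

open Module (finrank)

theorem card_le_finrank_ZS (U : Finset J) :
    Fintype.card J ≤ finrank (ZMod 2) (ZS (J := J) U) + U.card := by
  classical
  let f : (J → ZMod 2) →ₗ[ZMod 2] (U → ZMod 2) :=
    { toFun := fun y j => y j.1
      map_add' := fun _ _ => rfl
      map_smul' := fun _ _ => rfl }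
  have hk : LinearMap.ker f = ZS U := by
    ext y
    rw [LinearMap.mem_ker, mem_ZS_iff]
    constructor
    · intro h j hj
      exact congrFun h ⟨j, hj⟩
    · intro h
      funext j
      exact h j.1 j.2
  have h1 := LinearMap.finrank_range_add_finrank_ker f
  have h2 : finrank (ZMod 2) (LinearMap.range f) ≤ U.card := by
    refine le_trans (Submodule.finrank_le _) ?_
    simp
  rw [hk] at h1
  simp only [Module.finrank_pi] at h1
  omega

/-- Intersecting with `ZS U` lowers the dimension by at most `|U|`. -/
theorem finrank_inf_ZS (A : Submodule (ZMod 2) (J → ZMod 2)) (U : Finset J) :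
    finrank (ZMod 2) A ≤ finrank (ZMod 2) (A ⊓ ZS U : Submodule (ZMod 2) (J → ZMod 2)) +
      U.card := by
  have h1 := Submodule.finrank_sup_add_finrank_inf_eq A (ZS U)
  have h2 := Submodule.finrank_le (A ⊔ ZS U)
  have h3 := card_le_finrank_ZS U
  simp only [Module.finrank_pi] at h2
  omega

/-- Adding a subspace does not increase the codimension. -/
theorem codim_sup (A B Z : Submodule (ZMod 2) (J → ZMod 2)) (hBA : B ≤ A) (m : ℕ)
    (h : finrank (ZMod 2) A ≤ finrank (ZMod 2) B + m) :
    finrank (ZMod 2) (A ⊔ Z : Submodule (ZMod 2) (J → ZMod 2)) ≤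
      finrank (ZMod 2) (B ⊔ Z : Submodule (ZMod 2) (J → ZMod 2)) + m := by
  have h1 := Submodule.finrank_sup_add_finrank_inf_eq A Z
  have h2 := Submodule.finrank_sup_add_finrank_inf_eq B Z
  have h3 : finrank (ZMod 2) (B ⊓ Z : Submodule (ZMod 2) (J → ZMod 2)) ≤
      finrank (ZMod 2) (A ⊓ Z : Submodule (ZMod 2) (J → ZMod 2)) :=
    Submodule.finrank_mono (inf_le_inf_right Z hBA)
  omega

section Support

variable {nb : ι → Finset J} {l M r : ℕ}

/-- The variables of a set of clauses. -/
def svars (R : Finset (Clause J)) : Finset J := R.biUnion cvars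

/-- A core: a set of big clauses whose variables have small rank. -/
def IsCore (nb : ι → Finset J) (l M r : ℕ) (R : Finset (Clause J)) : Prop :=
  (svars R).card ≤ 2 * (M + r ^ 2) ∧ rho nb l (svars R) ≤ M + r ^ 2

open Classical in
/-- The base variables on which the invariant of the configuration `C` depends. -/
noncomputable def VC (nb : ι → Finset J) (l M r : ℕ) (C : Finset (Clause J)) : Finset ι :=
  ((C.filter fun D => Small nb l M D).biUnion fun D => Vs nb l (cvars D)) ∪
    (((Bigs nb l M C).powerset.filter fun R => IsCore nb l M r R).biUnion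
      fun R => Vs nb l (svars R))

/-- The coordinate `j` is determined by the coordinates `U` (in `L`, locally). -/
def Dep (nb : ι → Finset J) (l : ℕ) (L : Submodule (ZMod 2) (J → ZMod 2)) (S U : Finset J)
    (j : J) : Prop :=
  ∀ y ∈ L, y ∈ KS nb l (S ∪ U ∪ {j}) → (∀ i ∈ U, y i = 0) → y j = 0

theorem Dep.mono {L : Submodule (ZMod 2) (J → ZMod 2)} {S U U' : Finset J} {j : J}
    (hU : U ⊆ U') (h : Dep nb l L S U j) : Dep nb l L S U' j := by
  intro y hy hK h0
  refine h y hy (ksAnti ?_ hK) (fun i hi => h0 i (hU hi))
  exact union_subset_union (union_subset_union Subset.rfl hU) Subset.rfl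

/-- Rank bound for sets of determined coordinates. -/
theorem rho_of_dep (hE : Expands nb l) {L : Submodule (ZMod 2) (J → ZMod 2)}
    {S U Y₀ : Finset J} (hZ : ZS S ≤ L) (hK : L ≤ KS nb l S)
    (hf : finrank (ZMod 2) (KS nb l S) ≤ finrank (ZMod 2) L + M)
    (hc : (S ∪ U ∪ Y₀).card ≤ l) (hdep : ∀ j ∈ Y₀, Dep nb l L S U j) :
    rho nb l Y₀ ≤ M + U.card := by
  set T := S ∪ U ∪ Y₀ with hT
  have hY₀T : Y₀ ⊆ T := subset_union_right
  have hST : S ⊆ T := subset_union_left.trans subset_union_left
  have h1 := KS_eq_sup nb l hE Y₀ T hY₀T hc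
  have h2 := Submodule.finrank_sup_add_finrank_inf_eq (KS nb l T) (ZS Y₀)
  rw [← h1] at h2
  have h3 := rho_spec nb l Y₀
  have h4 : KS nb l T ⊔ L = KS nb l S := by
    apply le_antisymm
    · exact sup_le (ksAnti hST) hK
    · rw [KS_eq_sup nb l hE S T hST hc]
      exact sup_le_sup_left hZ _
  have h5 := Submodule.finrank_sup_add_finrank_inf_eq (KS nb l T) L
  rw [h4] at h5
  have h6 := finrank_inf_ZS (KS nb l T ⊓ L) U
  have h7 : KS nb l T ⊓ L ⊓ ZS U ≤ KS nb l T ⊓ ZS Y₀ := by
    rintro y ⟨⟨hyK, hyL⟩, hyU⟩
    refine ⟨hyK, ?_⟩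
    intro j hj
    refine hdep j hj y hyL (ksAnti ?_ hyK) hyU
    refine union_subset subset_union_left ?_
    rw [singleton_subset_iff]
    exact hY₀T hj
  have h8 := Submodule.finrank_mono h7
  omega

/-- The support lemma: the invariant only depends on the world restricted to `VC`. -/
theorem inv_congr (hE : Expands nb l) (hl : 4 * (M + r ^ 2) + r ^ 2 + r + 1 ≤ l)
    {C : Finset (Clause J)} (hr : (Bigs nb l M C).card ≤ r) {x x' : ι → ZMod 2}
    (hx : ∀ v ∈ VC nb l M r C, x v = x' v) (h : Inv nb l M r C x) : Inv nb l M r C x' := by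
  classical
  constructor
  · intro D hD hs y hy
    refine h.small D hD hs y (Con_congr ?_ hy)
    intro v hv
    symm
    apply hx
    unfold VC
    apply mem_union_left
    rw [mem_biUnion]
    exact ⟨D, mem_filter.2 ⟨hD, hs⟩, hv⟩
  · intro S hS L hZ hK hf y₀ hy₀
    set B := Bigs nb l M C with hB
    -- the core
    let Q : Finset (Clause J) → Prop := fun R =>
      ∃ U : Finset J, U.card ≤ r * R.card ∧ ∀ j ∈ svars R, Dep nb l L S U j
    have hne : (B.powerset.filter Q).Nonempty := by
      refine ⟨∅, mem_filter.2 ⟨empty_mem_powerset _, ∅, by simp, ?_⟩⟩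
      intro j hj
      simp [svars] at hj
    obtain ⟨R, hR, hRmax⟩ := exists_max_image (B.powerset.filter Q) card hne
    rw [mem_filter, mem_powerset] at hR
    obtain ⟨hRB, U, hUc, hUdep⟩ := hR
    have hRc : R.card ≤ r := (card_le_card hRB).trans hr
    have hUc' : U.card ≤ r ^ 2 := by
      refine hUc.trans ?_
      rw [pow_two]
      exact Nat.mul_le_mul_left r hRc
    set Y := svars R with hY
    have hsub : ∀ Y₀ ⊆ Y, Y₀.card ≤ 2 * (M + r ^ 2) + 1 → rho nb l Y₀ ≤ M + r ^ 2 := by
      intro Y₀ hY₀ hc₀
      have h1 : (S ∪ U ∪ Y₀).card ≤ l := by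
        have h1 := card_union_le (S ∪ U) Y₀
        have h2 := card_union_le S U
        omega
      have := rho_of_dep (M := M) hE hZ hK hf h1 (fun j hj => hUdep j (hY₀ hj))
      omega
    have hYc : Y.card ≤ 2 * (M + r ^ 2) := by
      by_contra hcon
      push Not at hcon
      obtain ⟨Y₀, hY₀, hc₀⟩ := exists_subset_card_eq (s := Y) (n := 2 * (M + r ^ 2) + 1) hcon
      have h1 := hsub Y₀ hY₀ hc₀.le
      have h2 := card_le_two_rho nb l hE Y₀ (by omega)
      omega
    have hYr := hsub Y Subset.rfl (by omega)
    have hSYc : (S ∪ Y).card ≤ l := by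
      have := card_union_le S Y
      omega
    have hxY : ∀ v ∈ Vs nb l Y, x v = x' v := by
      intro v hv
      apply hx
      unfold VC
      apply mem_union_right
      rw [mem_biUnion]
      exact ⟨R, mem_filter.2 ⟨mem_powerset.2 hRB, hYc, hYr⟩, hv⟩
    obtain ⟨y₁, hy₁, hy₁'⟩ := Con_ext nb l hE x' S (S ∪ Y) subset_union_left hSYc y₀ hy₀
    have hy₁Y : y₁ ∈ Con nb l x Y :=
      Con_congr (fun v hv => (hxY v hv).symm) (Con_anti subset_union_right hy₁)
    set A₁ := KS nb l (S ∪ Y) with hA₁
    have hcod₁ : finrank (ZMod 2) A₁ ≤ finrank (ZMod 2)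
        (A₁ ⊓ L : Submodule (ZMod 2) (J → ZMod 2)) + M := by
      have h4 : A₁ ⊔ L = KS nb l S := by
        apply le_antisymm
        · exact sup_le (ksAnti subset_union_left) hK
        · rw [KS_eq_sup nb l hE S (S ∪ Y) subset_union_left hSYc]
          exact sup_le_sup_left hZ _
      have h5 := Submodule.finrank_sup_add_finrank_inf_eq A₁ L
      rw [h4] at h5
      omega
    obtain ⟨S₁, hYS₁, hS₁c, y₂, hy₂, hy₂L, hbig₂⟩ := h.big Y hYc ((A₁ ⊓ L) ⊔ ZS Y)
      le_sup_right (sup_le (inf_le_left.trans (ksAnti subset_union_right)) (ZS_le_KS nb l Y))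
      (by
        have h1 := codim_sup A₁ (A₁ ⊓ L) (ZS Y) inf_le_left M hcod₁
        rwa [← KS_eq_sup nb l hE Y (S ∪ Y) subset_union_right hSYc] at h1) y₁ hy₁Y
    obtain ⟨k, hk, w, hw, hkw⟩ := Submodule.mem_sup.1 hy₂L
    set y₃ := y₁ + k with hy₃
    have hy₃Y : ∀ j ∈ Y, y₃ j = y₂ j := by
      intro j hj
      have h1 : k j + w j = y₂ j - y₁ j := congrFun hkw j
      rw [hw j hj, add_zero] at h1
      rw [hy₃, Pi.add_apply, h1]
      ring
    have hy₃C : y₃ ∈ Con nb l x' (S ∪ Y) := Con_add hy₁ hk.1
    have hy₃L : y₃ - y₀ ∈ L := by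
      have : y₃ - y₀ = (y₁ - y₀) + k := by rw [hy₃]; abel
      rw [this]
      refine L.add_mem (hZ ?_) hk.2
      intro j hj
      rw [Pi.sub_apply, hy₁' j hj, sub_self]
    have hcore : ∀ W ∈ R, SatIn y₃ W Y := by
      intro W hW
      obtain ⟨p, hp, _, ht⟩ := hbig₂ W (hRB hW)
      have hpY : p.1 ∈ Y := by
        rw [hY]
        exact mem_biUnion.2 ⟨W, hW, fst_mem_cvars hp⟩
      refine ⟨p, hp, hpY, ?_⟩
      unfold LitTrue at ht ⊢
      rw [hy₃Y p.1 hpY]
      exact ht
    -- cardinalities
    have hcards : ∀ T : Finset J, T.card ≤ r → (S ∪ Y ∪ U ∪ T).card ≤ l := by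
      intro T hT
      have h1 := card_union_le (S ∪ Y ∪ U) T
      have h2 := card_union_le (S ∪ Y) U
      have h3 := card_union_le S Y
      omega
    -- greedy step
    have greedy : ∀ G : Finset (Clause J), G ⊆ B \ R → ∃ T : Finset J, T.card ≤ G.card ∧
        ∃ z ∈ Con nb l x' (S ∪ Y ∪ U ∪ T), z - y₀ ∈ L ∧ (∀ j ∈ Y, z j = y₃ j) ∧
          ∀ W ∈ G, SatIn z W T := by
      intro G
      induction G using Finset.induction_on with
      | empty =>
        intro _
        obtain ⟨z, hz, hz'⟩ := Con_ext nb l hE x' (S ∪ Y) (S ∪ Y ∪ U ∪ ∅)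
          (subset_union_left.trans subset_union_left) (hcards ∅ (by simp)) y₃ hy₃C
        refine ⟨∅, by simp, z, hz, ?_, ?_, by simp⟩
        · have : z - y₀ = (z - y₃) + (y₃ - y₀) := by abel
          rw [this]
          refine L.add_mem (hZ ?_) hy₃L
          intro j hj
          rw [Pi.sub_apply, hz' j (mem_union_left _ hj), sub_self]
        · intro j hj
          exact hz' j (mem_union_right _ hj)
      | insert W G hWG ih =>
        intro hsubG
        obtain ⟨T, hTc, z, hz, hzL, hzY, hzG⟩ := ih ((subset_insert _ _).trans hsubG)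
        have hWB : W ∈ B \ R := hsubG (mem_insert_self _ _)
        have hGc : (insert W G).card + R.card ≤ r := by
          have h1 := card_le_card hsubG
          have h2 := card_sdiff_add_card_eq_card hRB
          omega
        rw [card_insert_of_notMem hWG] at hGc
        -- a free variable of `W`
        have hfree : ∃ j ∈ cvars W, ¬ Dep nb l L S (U ∪ T) j := by
          by_contra hcon
          push Not at hcon
          have hmem : insert W R ∈ B.powerset.filter Q := by
            rw [mem_filter, mem_powerset]
            refine ⟨insert_subset (mem_sdiff.1 hWB).1 hRB, U ∪ T, ?_, ?_⟩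
            · rw [card_insert_of_notMem (mem_sdiff.1 hWB).2]
              have h1 := card_union_le U T
              have h2 : r * (R.card + 1) = r * R.card + r := by ring
              omega
            · intro j hj
              rw [svars, biUnion_insert, mem_union] at hj
              rcases hj with hj | hj
              · exact hcon j hj
              · exact (hUdep j hj).mono subset_union_left
          have h1 := hRmax _ hmem
          rw [card_insert_of_notMem (mem_sdiff.1 hWB).2] at h1
          omega
        obtain ⟨j, hjW, hjdep⟩ := hfree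
        unfold Dep at hjdep
        push Not at hjdep
        obtain ⟨f, hfL, hfK, hf0, hfj⟩ := hjdep
        have hfj1 : f j = 1 := by
          rcases zmod2_cases (f j) with h | h
          · exact absurd h hfj
          · exact h
        set T' := T ∪ {j} with hT'
        have hT'c : T'.card ≤ G.card + 1 := by
          have h1 : T'.card ≤ T.card + ({j} : Finset J).card := card_union_le T {j}
          rw [card_singleton] at h1
          omega
        have hbigset := hcards T' (by omega)
        -- extend the flipping vector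
        obtain ⟨f', hf'K, hf'⟩ := KS_ext (nb := nb) hE (S := S ∪ (U ∪ T) ∪ {j})
          (S' := S ∪ Y ∪ U ∪ T') (by
            intro i hi
            simp only [hT', mem_union, mem_singleton] at hi ⊢
            tauto) hbigset hfK
        have hf'L : f' ∈ L := by
          have : f' = (f' - f) + f := by abel
          rw [this]
          refine L.add_mem (hZ ?_) hfL
          intro i hi
          rw [Pi.sub_apply, hf' i (by simp [hi]), sub_self]
        have hf'U : ∀ i ∈ U, f' i = 0 := by
          intro i hi
          rw [hf' i (by simp [hi])]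
          exact hf0 i (by simp [hi])
        have hf'T : ∀ i ∈ T, f' i = 0 := by
          intro i hi
          rw [hf' i (by simp [hi])]
          exact hf0 i (by simp [hi])
        have hf'j : f' j = 1 := by
          rw [hf' j (by simp), hfj1]
        have hf'Y : ∀ i ∈ Y, f' i = 0 := by
          intro i hi
          refine hUdep i hi f' hf'L (ksAnti ?_ hf'K) hf'U
          intro a ha
          simp only [mem_union, mem_singleton] at ha ⊢
          rcases ha with (ha | ha) | rfl
          · tauto
          · tauto
          · tauto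
        -- extend the current point
        obtain ⟨z', hz', hz'eq⟩ := Con_ext nb l hE x' (S ∪ Y ∪ U ∪ T) (S ∪ Y ∪ U ∪ T') (by
            intro i hi
            simp only [hT', mem_union, mem_singleton] at hi ⊢
            tauto) hbigset z hz
        have hz'L : z' - y₀ ∈ L := by
          have : z' - y₀ = (z' - z) + (z - y₀) := by abel
          rw [this]
          refine L.add_mem (hZ ?_) hzL
          intro i hi
          rw [Pi.sub_apply, hz'eq i (by simp [hi]), sub_self]
        obtain ⟨b, hb⟩ := mem_cvars.1 hjW
        -- choose the right value at `j`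
        obtain ⟨t, ht, htj⟩ : ∃ t : J → ZMod 2, (t = 0 ∨ t = f') ∧
            (z' + t) j = if b then 1 else 0 := by
          by_cases hzb : z' j = if b then 1 else 0
          · exact ⟨0, Or.inl rfl, by simpa using hzb⟩
          · refine ⟨f', Or.inr rfl, ?_⟩
            rw [Pi.add_apply, hf'j]
            generalize z' j = a at hzb
            generalize hc : (if b = true then (1 : ZMod 2) else 0) = c at hzb ⊢
            clear hc
            revert a c
            decide
        have htK : t ∈ KS nb l (S ∪ Y ∪ U ∪ T') := by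
          rcases ht with rfl | rfl
          · exact Submodule.zero_mem _
          · exact hf'K
        have htL : t ∈ L := by
          rcases ht with rfl | rfl
          · exact Submodule.zero_mem _
          · exact hf'L
        have htY : ∀ i ∈ Y, t i = 0 := by
          rcases ht with rfl | rfl
          · intro i _; rfl
          · exact hf'Y
        have htT : ∀ i ∈ T, t i = 0 := by
          rcases ht with rfl | rfl
          · intro i _; rfl
          · exact hf'T
        refine ⟨T', by rw [card_insert_of_notMem hWG]; exact hT'c, z' + t,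
          Con_add hz' htK, ?_, ?_, ?_⟩
        · have : z' + t - y₀ = (z' - y₀) + t := by abel
          rw [this]
          exact L.add_mem hz'L htL
        · intro i hi
          rw [Pi.add_apply, htY i hi, add_zero, hz'eq i (by simp [hi]), hzY i hi]
        · intro W₁ hW₁
          rcases mem_insert.1 hW₁ with rfl | hW₁G
          · exact ⟨(j, b), hb, by simp [hT'], htj⟩
          · obtain ⟨p, hp, hpT, hpt⟩ := hzG W₁ hW₁G
            refine ⟨p, hp, by simp [hT', hpT], ?_⟩
            unfold LitTrue at hpt ⊢
            rw [Pi.add_apply, htT p.1 hpT, add_zero, hz'eq p.1 (by simp [hpT])]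
            exact hpt
    obtain ⟨T, hTc, z, hz, hzL, hzY, hzG⟩ := greedy (B \ R) Subset.rfl
    have hSS : S ⊆ S ∪ Y ∪ U ∪ T :=
      subset_union_left.trans (subset_union_left.trans subset_union_left)
    have hall : ∀ W ∈ Bigs nb l M C, SatIn z W (S ∪ Y ∪ U ∪ T) := by
      intro W hW
      by_cases hWR : W ∈ R
      · obtain ⟨p, hp, hpY, ht⟩ := hcore W hWR
        refine ⟨p, hp, by simp [hpY], ?_⟩
        unfold LitTrue at ht ⊢
        rw [hzY p.1 hpY]
        exact ht
      · obtain ⟨p, hp, hpT, ht⟩ := hzG W (mem_sdiff.2 ⟨hW, hWR⟩)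
        exact ⟨p, hp, by simp [hpT], ht⟩
    obtain ⟨S₃, h1, h2, h3, h4⟩ := restrict_sat (r := r) (by rw [← hB]; exact hr) hSS hall
    exact ⟨S₃, h1, h3, z, Con_anti h2 hz, hzL, h4⟩

/-! ### The number of base variables -/

theorem cvars_card_le (D : Clause J) : (cvars D).card ≤ D.card := card_image_le

theorem svars_union (R R' : Finset (Clause J)) : svars (R ∪ R') = svars R ∪ svars R' := by
  unfold svars
  ext j
  simp only [mem_biUnion, mem_union]
  constructor
  · rintro ⟨a, ha | ha, hj⟩
    · exact Or.inl ⟨a, ha, hj⟩
    · exact Or.inr ⟨a, ha, hj⟩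
  · rintro (⟨a, ha, hj⟩ | ⟨a, ha, hj⟩)
    · exact ⟨a, Or.inl ha, hj⟩
    · exact ⟨a, Or.inr ha, hj⟩

theorem Vs_mono {S S' : Finset J} (h : S ⊆ S') : Vs nb l S ⊆ Vs nb l S' := by
  intro v hv
  simp only [Vs, mem_filter, mem_univ, true_and] at hv ⊢
  obtain ⟨c, hc, hcv⟩ := hv
  exact ⟨c, lamMono h hc, hcv⟩

/-- Big clauses have more than `M` variables. -/
theorem lt_card_of_big {W : Clause J} (hW : ¬ Small nb l M W) : M < (cvars W).card := by
  by_contra hcon
  push Not at hcon
  apply hW
  refine ⟨by omega, (rho_le_card nb l _).trans hcon⟩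

/-- A big clause with few variables has rank at least `M`. -/
theorem le_rho_of_big (hE : Expands nb l) {W : Clause J} (hW : ¬ Small nb l M W)
    (hc : (cvars W).card ≤ l) : M ≤ rho nb l (cvars W) := by
  unfold Small at hW
  rw [not_and_or] at hW
  rcases hW with h | h
  · have := card_le_two_rho nb l hE _ hc
    omega
  · omega

open Classical in
/-- The union of the cores containing a big clause has small rank. -/
theorem rho_cores (hE : Expands nb l) (hl : 2 * (M + r ^ 3) + 2 * (M + r ^ 2) ≤ l)
    {B : Finset (Clause J)} (hr : B.card ≤ r) {W : Clause J} (hW : ¬ Small nb l M W)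
    (F : Finset (Finset (Clause J))) (hF : ∀ R ∈ F, R ⊆ B ∧ W ∈ R ∧ IsCore nb l M r R) :
    F = ∅ ∨ (W ∈ F.sup id ∧ F.sup id ⊆ B ∧
      rho nb l (svars (F.sup id)) ≤ M + (F.sup id).card * r ^ 2 ∧
      (svars (F.sup id)).card ≤ 2 * (M + r ^ 3)) := by
  have hr3 : ∀ k ≤ r, k * r ^ 2 ≤ r ^ 3 := by
    intro k hk
    calc k * r ^ 2 ≤ r * r ^ 2 := Nat.mul_le_mul_right _ hk
      _ = r ^ 3 := by ring
  induction F using Finset.induction_on with
  | empty => left; rfl
  | insert R F hRF ih =>
    right
    obtain ⟨hRB, hWR, hRc, hRr⟩ := hF R (mem_insert_self _ _)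
    have hR1 : 1 ≤ R.card := card_pos.2 ⟨W, hWR⟩
    have hRcard : R.card ≤ r := (card_le_card hRB).trans hr
    have hwsub : cvars W ⊆ svars R := subset_biUnion_of_mem cvars hWR
    rw [sup_insert, id_eq]
    rcases ih (fun R' hR' => hF R' (mem_insert_of_mem hR')) with rfl | ⟨h1, h2, h3, h4⟩
    · rw [sup_empty, bot_eq_empty, sup_eq_union, union_empty]
      refine ⟨hWR, hRB, ?_, ?_⟩
      · refine hRr.trans ?_
        have : 1 * r ^ 2 ≤ R.card * r ^ 2 := Nat.mul_le_mul_right _ hR1
        omega
      · have : r ^ 2 ≤ r ^ 3 := by simpa using hr3 1 (by omega)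
        omega
    · set H := F.sup id with hH
      rw [sup_eq_union]
      have hHB : R ∪ H ⊆ B := union_subset hRB h2
      have hHcard : (R ∪ H).card ≤ r := (card_le_card hHB).trans hr
      have hrho : rho nb l (svars (R ∪ H)) ≤ M + (R ∪ H).card * r ^ 2 := by
        by_cases hsub : R ⊆ H
        · rw [union_eq_right.2 hsub]
          exact h3
        · have hlt : H.card + 1 ≤ (R ∪ H).card := by
            apply Nat.succ_le_of_lt
            apply card_lt_card
            rw [ssubset_iff_subset_ne]
            refine ⟨subset_union_right, ?_⟩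
            intro heq
            apply hsub
            rw [heq]
            exact subset_union_left
          have hc : (svars R ∪ svars H).card ≤ l := by
            have := card_union_le (svars R) (svars H)
            omega
          have h5 := rho_submod nb l hE (svars R) (svars H) hc
          have h6 : rho nb l (cvars W) ≤ rho nb l (svars R ∩ svars H) := by
            apply rho_mono nb l hE
            · exact subset_inter hwsub (subset_biUnion_of_mem cvars h1)
            · refine (card_le_card inter_subset_left).trans ?_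
              omega
          have h7 := le_rho_of_big hE hW (by
            have := card_le_card hwsub
            omega)
          rw [svars_union]
          have h8 : (H.card + 1) * r ^ 2 ≤ (R ∪ H).card * r ^ 2 := Nat.mul_le_mul_right _ hlt
          have h9 : (H.card + 1) * r ^ 2 = H.card * r ^ 2 + r ^ 2 := by ring
          omega
      refine ⟨mem_union_right _ h1, hHB, hrho, ?_⟩
      have hc : (svars (R ∪ H)).card ≤ l := by
        rw [svars_union]
        have := card_union_le (svars R) (svars H)
        omega
      have h5 := card_le_two_rho nb l hE _ hc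
      have h6 := hr3 _ hHcard
      omega

/-- The invariant depends on few base variables. -/
theorem VC_card (hE : Expands nb l) (hl : 2 * (M + r ^ 3) + 2 * (M + r ^ 2) ≤ l)
    {C : Finset (Clause J)} (hr : (Bigs nb l M C).card ≤ r) :
    2 * (VC nb l M r C).card ≤ totalSpace C + 2 * (r * (M + r ^ 3)) := by
  classical
  have h1 : 2 * ((C.filter fun D => Small nb l M D).biUnion fun D => Vs nb l (cvars D)).card ≤
      totalSpace C := by
    calc 2 * ((C.filter fun D => Small nb l M D).biUnion fun D => Vs nb l (cvars D)).card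
        ≤ 2 * ∑ D ∈ C.filter (fun D => Small nb l M D), (Vs nb l (cvars D)).card :=
          Nat.mul_le_mul_left 2 card_biUnion_le
      _ = ∑ D ∈ C.filter (fun D => Small nb l M D), 2 * (Vs nb l (cvars D)).card :=
          mul_sum _ _ _
      _ ≤ ∑ D ∈ C.filter (fun D => Small nb l M D), D.card := by
          refine sum_le_sum fun D hD => ?_
          have hs := (mem_filter.1 hD).2
          refine (Vs_card nb l hE _ ?_).trans (cvars_card_le D)
          have := hs.1
          omega
      _ ≤ ∑ D ∈ C, D.card := sum_le_sum_of_subset (filter_subset _ _)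
      _ = totalSpace C := rfl
  set B := Bigs nb l M C with hB
  let CW : Clause J → Finset (Finset (Clause J)) := fun W =>
    B.powerset.filter fun R => W ∈ R ∧ IsCore nb l M r R
  have hbound : ∀ W ∈ B, (Vs nb l (svars ((CW W).sup id))).card ≤ M + r ^ 3 := by
    intro W hW
    have hWb : ¬ Small nb l M W := (mem_Bigs.1 hW).2
    have := rho_cores hE hl hr hWb (CW W) (by
      intro R hR
      simp only [CW, mem_filter, mem_powerset] at hR
      exact hR)
    rcases this with h0 | ⟨_, _, _, h4⟩
    · rw [h0, sup_empty]
      have : svars (⊥ : Finset (Clause J)) = ∅ := by simp [svars]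
      rw [this]
      have := Vs_card nb l hE ∅ (by simp)
      simp only [card_empty] at this
      omega
    · have := Vs_card nb l hE _ (by omega : (svars ((CW W).sup id)).card ≤ l)
      omega
  have h2 : ((B.powerset.filter fun R => IsCore nb l M r R).biUnion
      fun R => Vs nb l (svars R)) ⊆ B.biUnion fun W => Vs nb l (svars ((CW W).sup id)) := by
    intro v hv
    rw [mem_biUnion] at hv
    obtain ⟨R, hR, hvR⟩ := hv
    rw [mem_filter, mem_powerset] at hR
    have hne : R.Nonempty := by
      rw [nonempty_iff_ne_empty]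
      rintro rfl
      have h0 := Vs_card nb l hE ∅ (by simp)
      have h3 : svars (∅ : Finset (Clause J)) = ∅ := by simp [svars]
      rw [h3] at hvR
      have h4 : 0 < (Vs nb l (∅ : Finset J)).card := card_pos.2 ⟨v, hvR⟩
      simp only [card_empty] at h0
      omega
    obtain ⟨W, hW⟩ := hne
    rw [mem_biUnion]
    refine ⟨W, hR.1 hW, ?_⟩
    refine Vs_mono ?_ hvR
    have hRC : R ∈ CW W := by
      simp only [CW, mem_filter, mem_powerset]
      exact ⟨hR.1, hW, hR.2⟩
    have hle : R ⊆ (CW W).sup id := le_sup (f := id) hRC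
    exact biUnion_subset_biUnion_of_subset_left cvars hle
  have h3 : ((B.powerset.filter fun R => IsCore nb l M r R).biUnion
      fun R => Vs nb l (svars R)).card ≤ r * (M + r ^ 3) := by
    calc ((B.powerset.filter fun R => IsCore nb l M r R).biUnion
          fun R => Vs nb l (svars R)).card
        ≤ (B.biUnion fun W => Vs nb l (svars ((CW W).sup id))).card := card_le_card h2
      _ ≤ ∑ W ∈ B, (Vs nb l (svars ((CW W).sup id))).card := card_biUnion_le
      _ ≤ ∑ W ∈ B, (M + r ^ 3) := sum_le_sum hbound
      _ = B.card * (M + r ^ 3) := by rw [sum_const, smul_eq_mul]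
      _ ≤ r * (M + r ^ 3) := Nat.mul_le_mul_right _ hr
  have h4 : (VC nb l M r C).card ≤
      ((C.filter fun D => Small nb l M D).biUnion fun D => Vs nb l (cvars D)).card +
      ((B.powerset.filter fun R => IsCore nb l M r R).biUnion
        fun R => Vs nb l (svars R)).card := card_union_le _ _
  omega

/-- The number of big clauses is controlled by the total space. -/
theorem Bigs_card_mul (C : Finset (Clause J)) :
    (Bigs nb l M C).card * (M + 1) ≤ totalSpace C := by
  calc (Bigs nb l M C).card * (M + 1) = ∑ _W ∈ Bigs nb l M C, (M + 1) := by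
        rw [sum_const, smul_eq_mul]
    _ ≤ ∑ W ∈ Bigs nb l M C, W.card := by
        refine sum_le_sum fun W hW => ?_
        have h1 := lt_card_of_big (mem_Bigs.1 hW).2
        have h2 := cvars_card_le W
        omega
    _ ≤ ∑ W ∈ C, W.card := sum_le_sum_of_subset (fun W hW => (mem_Bigs.1 hW).1)
    _ = totalSpace C := rfl

end Support

end Pool.Agent.H56.TSp
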